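import Pool.Agent.H700.GN.Label

/-!
# Four edges on few vertices of a uniform hypergraph with a shadow of small factorization norm
-/

set_option autoImplicit false

namespace Pool.Agent.H700.GN

open Finset

section labels

/-- **Labels with multiplicities.** -/
theorem labelledK {X Y Z : Type*} [Finite X] [Finite Y] [Finite Z] (F : X → Y → Prop) (g K : ℕ)
    (hg : 1 ≤ g) (hF : FacNormLE F g) (lab : X → Y → Z)
    (hlab : ∀ (A : Set X) (B : Set Y), (∀ x ∈ A, ∀ y ∈ B, F x y) →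
      ∀ (C : Finset (X × Y)) (z : Z), (∀ c ∈ C, c.1 ∈ A ∧ c.2 ∈ B ∧ lab c.1 c.2 = z) → #C ≤ K) :
    Nat.card {p : X × Y // F p.1 p.2} ^ 2 ≤
      2 ^ (766 * g ^ 4) * (Nat.card X * Nat.card Y * (K * Nat.card Z)) := by
  classical
  have := Fintype.ofFinite X
  have := Fintype.ofFinite Y
  have := Fintype.ofFinite Z
  obtain ⟨A, B, hAB, hc⟩ := exists_rect F g hg hF
  set R : Finset (X × Y) := univ.filter (fun p => p.1 ∈ A ∧ p.2 ∈ B) with hR
  have h1 : Nat.card A * Nat.card B = #R := by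
    rw [← Nat.card_prod]
    have e1 : #R = Nat.card {p : X × Y // p.1 ∈ A ∧ p.2 ∈ B} := by
      rw [Nat.card_eq_fintype_card, Fintype.card_subtype]
    rw [e1]
    refine Nat.card_congr ⟨fun p => ⟨(p.1.1, p.2.1), p.1.2, p.2.2⟩,
      fun q => (⟨q.1.1, q.2.1⟩, ⟨q.1.2, q.2.2⟩), fun p => rfl, fun q => rfl⟩
  have h2 : #R ≤ K * Nat.card Z := by
    have e1 : #R = ∑ z : Z, #{p ∈ R | lab p.1 p.2 = z} :=
      card_eq_sum_card_fiberwise fun p _ => mem_coe.mpr (mem_univ _)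
    rw [e1, Nat.card_eq_fintype_card, mul_comm]
    refine (sum_le_sum fun z _ => hlab A B hAB _ z ?_).trans (le_of_eq ?_)
    · intro c hc
      rw [mem_filter, hR, mem_filter] at hc
      exact ⟨hc.1.2.1, hc.1.2.2, hc.2⟩
    · rw [sum_const, smul_eq_mul, card_univ]
  refine hc.trans ?_
  rw [h1]
  calc 2 ^ (766 * g ^ 4) * (Nat.card X * Nat.card Y) * #R ≤
      2 ^ (766 * g ^ 4) * (Nat.card X * Nat.card Y) * (K * Nat.card Z) := Nat.mul_le_mul_left _ h2
    _ = _ := by ring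

end labels

section hyper

variable {V : Type*} [DecidableEq V]

/-- `H` is an `r`-uniform hypergraph in which no four edges have at most `4 (r - 2) + 3` vertices -/
def FourFree (r : ℕ) (H : Finset (Finset V)) : Prop :=
  (∀ e ∈ H, #e = r) ∧ ∀ S ⊆ H, #S = 4 → 4 * (r - 2) + 3 < #(S.biUnion id)

theorem card_four {E1 E2 E3 E4 : Finset V} {r : ℕ} (h1 : #E1 = r) (h2 : #E2 = r) (h3 : #E3 = r)
    (h4 : #E4 = r) {x x' y y' z : V} (hz1 : z ∈ E1) (hz2 : z ∈ E2) (hx1 : x ∈ E1) (hx3 : x ∈ E3)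
    (hy2 : y' ∈ E2) (hy3 : y' ∈ E3) (hxy : x ≠ y') (hx2 : x' ∈ E2) (hx4 : x' ∈ E4) (hy1 : y ∈ E1)
    (hy4 : y ∈ E4) (hxy' : x' ≠ y) : #(((E1 ∪ E2) ∪ E3) ∪ E4) + 5 ≤ 4 * r := by
  have a1 := card_union_add_card_inter E1 E2
  have a2 := card_union_add_card_inter (E1 ∪ E2) E3
  have a3 := card_union_add_card_inter ((E1 ∪ E2) ∪ E3) E4
  have b1 : 1 ≤ #(E1 ∩ E2) := card_pos.mpr ⟨z, mem_inter.mpr ⟨hz1, hz2⟩⟩
  have b2 : 2 ≤ #((E1 ∪ E2) ∩ E3) := by
    rw [← card_pair hxy]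
    refine card_le_card ?_
    intro w hw
    rw [mem_insert, mem_singleton] at hw
    rw [mem_inter, mem_union]
    rcases hw with rfl | rfl
    · exact ⟨Or.inl hx1, hx3⟩
    · exact ⟨Or.inr hy2, hy3⟩
  have b3 : 2 ≤ #(((E1 ∪ E2) ∪ E3) ∩ E4) := by
    rw [← card_pair hxy']
    refine card_le_card ?_
    intro w hw
    rw [mem_insert, mem_singleton] at hw
    rw [mem_inter, mem_union, mem_union]
    rcases hw with rfl | rfl
    · exact ⟨Or.inl (Or.inr hx2), hx4⟩
    · exact ⟨Or.inl (Or.inl hy1), hy4⟩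
  omega

/-- the edges containing two vertices -/
def through (H : Finset (Finset V)) (x y : V) : Finset (Finset V) :=
  H.filter (fun e => x ∈ e ∧ y ∈ e)

/-- the vertices in a common edge with `x` and `y` -/
def hull (H : Finset (Finset V)) (x y : V) : Finset V := (through H x y).biUnion id

theorem card_through {r : ℕ} (hr : 2 ≤ r) {H : Finset (Finset V)} (hH : FourFree r H) {x y : V}
    (hxy : x ≠ y) : #(through H x y) ≤ 3 := by
  by_contra hcon
  obtain ⟨S, hS, hS4⟩ := exists_subset_card_eq (show 4 ≤ #(through H x y) by omega)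
  have h1 := hH.2 S (hS.trans (filter_subset _ _)) hS4
  have h2 : S.biUnion id ⊆ {x, y} ∪ S.biUnion (fun e => e \ {x, y}) := by
    intro w hw
    rw [mem_biUnion] at hw
    obtain ⟨e, he, hw⟩ := hw
    rw [mem_union, mem_biUnion]
    by_cases h : w ∈ ({x, y} : Finset V)
    · exact Or.inl h
    · exact Or.inr ⟨e, he, mem_sdiff.mpr ⟨hw, h⟩⟩
  have h3 : #(S.biUnion (fun e => e \ {x, y})) ≤ #S * (r - 2) := by
    refine card_biUnion_le_card_mul _ _ _ fun e he => ?_
    have he' := mem_filter.mp (hS he)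
    rw [card_sdiff_of_subset, hH.1 e he'.1, card_pair hxy]
    intro w hw
    rw [mem_insert, mem_singleton] at hw
    rcases hw with rfl | rfl
    · exact he'.2.1
    · exact he'.2.2
  have h4 := (card_le_card h2).trans (card_union_le _ _)
  rw [card_pair hxy] at h4
  rw [hS4] at h3
  omega

theorem card_hull {r : ℕ} (hr : 2 ≤ r) {H : Finset (Finset V)} (hH : FourFree r H) {x y : V}
    (hxy : x ≠ y) : #(hull H x y) ≤ 3 * r := by
  have h1 : #(hull H x y) ≤ #(through H x y) * r := by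
    refine card_biUnion_le_card_mul _ _ _ fun e he => ?_
    exact (hH.1 e (mem_filter.mp he).1).le
  exact h1.trans (Nat.mul_le_mul_right _ (card_through hr hH hxy))

theorem mem_hull {H : Finset (Finset V)} {x y w : V} {e : Finset V} (he : e ∈ H) (hx : x ∈ e)
    (hy : y ∈ e) (hw : w ∈ e) : w ∈ hull H x y :=
  mem_biUnion.mpr ⟨e, mem_filter.mpr ⟨he, hx, hy⟩, hw⟩

/-- Cells of a rectangle with the same label. -/
theorem few_cells {r : ℕ} (hr : 3 ≤ r) {H : Finset (Finset V)} (hH : FourFree r H)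
    (A B : Set V) (E : V → V → Finset V) (lab : V → V → V)
    (hE : ∀ x ∈ A, ∀ y ∈ B, x ≠ y ∧ E x y ∈ H ∧ x ∈ E x y ∧ y ∈ E x y ∧ lab x y ∈ E x y ∧
      lab x y ≠ x ∧ lab x y ≠ y)
    (C : Finset (V × V)) (z : V) (hC : ∀ c ∈ C, c.1 ∈ A ∧ c.2 ∈ B ∧ lab c.1 c.2 = z) :
    #C ≤ 33 * r ^ 2 := by
  rcases C.eq_empty_or_nonempty with hne | ⟨⟨x, y⟩, hxy⟩
  · rw [hne]; simp
  have hAB : ∀ a ∈ A, ∀ b ∈ B, a ≠ b := fun a ha b hb => (hE a ha b hb).1
  obtain ⟨hxA, hyB, hz⟩ := hC (x, y) hxy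
  simp only at hxA hyB hz
  obtain ⟨hne, hE1, hx1, hy1, hl1, hlx, hly⟩ := hE x hxA y hyB
  rw [hz] at hl1 hlx hly
  have hr2 : 2 ≤ r := by omega
  have hsub : C ⊆ ((hull H x z ×ˢ hull H x z) ∪ (hull H y z ×ˢ hull H y z)) ∪
      ((hull H x y ×ˢ hull H x y) ∪
      (((E x y).filter (fun y' => y' ≠ z)).biUnion (fun y' => (hull H y' z) ×ˢ {y'}) ∪
        ((E x y).filter (fun x' => x' ≠ z)).biUnion (fun x' => {x'} ×ˢ (hull H x' z)))) := by
    rintro ⟨x', y'⟩ hc
    obtain ⟨hxA', hyB', hz'⟩ := hC (x', y') hc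
    simp only at hxA' hyB' hz'
    obtain ⟨hne2, hE2, hx2, hy2, hl2, hlx2, hly2⟩ := hE x' hxA' y' hyB'
    obtain ⟨hne3, hE3, hx3, hy3, -, -, -⟩ := hE x hxA y' hyB'
    obtain ⟨hne4, hE4, hx4, hy4, -, -, -⟩ := hE x' hxA' y hyB
    rw [hz'] at hl2 hlx2 hly2
    simp only [mem_union, mem_product, mem_biUnion, mem_filter, mem_singleton]
    by_contra hcon
    push Not at hcon
    obtain ⟨⟨c1, c2⟩, c3, c4, c5⟩ := hcon
    -- all four edges are different
    have n12 : E x y ≠ E x' y' := by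
      intro h
      rw [← h] at hx2 hy2
      exact c3 (mem_hull hE1 hx1 hy1 hx2) (mem_hull hE1 hx1 hy1 hy2)
    have n13 : E x y ≠ E x y' := by
      intro h
      rw [← h] at hy3
      exact c4 y' ⟨hy3, Ne.symm hly2⟩ (mem_hull hE2 hy2 hl2 hx2) rfl
    have n14 : E x y ≠ E x' y := by
      intro h
      rw [← h] at hx4
      exact c5 x' ⟨hx4, Ne.symm hlx2⟩ rfl (mem_hull hE2 hx2 hl2 hy2)
    have n23 : E x' y' ≠ E x y' := by
      intro h
      rw [← h] at hx3
      exact c1 (mem_hull hE2 hx3 hl2 hx2) (mem_hull hE2 hx3 hl2 hy2)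
    have n24 : E x' y' ≠ E x' y := by
      intro h
      rw [← h] at hy4
      exact c2 (mem_hull hE2 hy4 hl2 hx2) (mem_hull hE2 hy4 hl2 hy2)
    have n34 : E x y' ≠ E x' y := by
      intro h
      rw [← h] at hx4 hy4
      exact c3 (mem_hull hE3 hx3 hy4 hx4) (mem_hull hE3 hx3 hy4 hy3)
    have hcard := card_four (hH.1 _ hE1) (hH.1 _ hE2) (hH.1 _ hE3) (hH.1 _ hE4) hl1 hl2 hx1 hx3
      hy2 hy3 (hAB x hxA y' hyB') hx2 hx4 hy1 hy4 (hAB x' hxA' y hyB)
    have hS := hH.2 {E x y, E x' y', E x y', E x' y} (by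
      intro e he
      simp only [mem_insert, mem_singleton] at he
      rcases he with rfl | rfl | rfl | rfl <;> assumption) (by
      rw [card_insert_of_notMem (by simp [n12, n13, n14]), card_insert_of_notMem (by simp [n23, n24]),
        card_insert_of_notMem (by simp [n34]), card_singleton])
    have e1 : ({E x y, E x' y', E x y', E x' y} : Finset (Finset V)).biUnion id =
        ((E x y ∪ E x' y') ∪ E x y') ∪ E x' y := by
      ext w
      simp only [mem_biUnion, mem_insert, mem_singleton, id, exists_eq_or_imp, exists_eq_left,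
        mem_union, or_assoc]
    rw [e1] at hS
    omega
  have k1 := card_hull hr2 hH (Ne.symm hlx)
  have k2 := card_hull hr2 hH (Ne.symm hly)
  have k3 := card_hull hr2 hH hne
  have m1 : ∀ n, n ≤ 3 * r → n * n ≤ 9 * r ^ 2 := fun n hn => by
    calc n * n ≤ (3 * r) * (3 * r) := Nat.mul_le_mul hn hn
      _ = 9 * r ^ 2 := by ring
  have k4 : #(((E x y).filter (fun y' => y' ≠ z)).biUnion
      (fun y' => (hull H y' z) ×ˢ ({y'} : Finset V))) ≤ 3 * r ^ 2 := by
    have e1 : ∀ y' ∈ (E x y).filter (fun y' => y' ≠ z),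
        #((hull H y' z) ×ˢ ({y'} : Finset V)) ≤ 3 * r := by
      intro y' hy'
      rw [card_product, card_singleton, mul_one]
      exact card_hull hr2 hH (mem_filter.mp hy').2
    calc _ ≤ #((E x y).filter (fun y' => y' ≠ z)) * (3 * r) := card_biUnion_le_card_mul _ _ _ e1
      _ ≤ r * (3 * r) := Nat.mul_le_mul_right _
          ((card_le_card (filter_subset _ _)).trans (hH.1 _ hE1).le)
      _ = 3 * r ^ 2 := by ring
  have k5 : #(((E x y).filter (fun x' => x' ≠ z)).biUnion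
      (fun x' => ({x'} : Finset V) ×ˢ (hull H x' z))) ≤ 3 * r ^ 2 := by
    have e1 : ∀ x' ∈ (E x y).filter (fun x' => x' ≠ z),
        #(({x'} : Finset V) ×ˢ (hull H x' z)) ≤ 3 * r := by
      intro y' hy'
      rw [card_product, card_singleton, one_mul]
      exact card_hull hr2 hH (mem_filter.mp hy').2
    calc _ ≤ #((E x y).filter (fun x' => x' ≠ z)) * (3 * r) := card_biUnion_le_card_mul _ _ _ e1
      _ ≤ r * (3 * r) := Nat.mul_le_mul_right _
          ((card_le_card (filter_subset _ _)).trans (hH.1 _ hE1).le)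
      _ = 3 * r ^ 2 := by ring
  have k6 := card_le_card hsub
  have k7 := k6.trans (card_union_le _ _)
  have k8 := card_union_le (hull H x z ×ˢ hull H x z) (hull H y z ×ˢ hull H y z)
  have k9 := card_union_le (hull H x y ×ˢ hull H x y)
      (((E x y).filter (fun y' => y' ≠ z)).biUnion (fun y' => (hull H y' z) ×ˢ {y'}) ∪
        ((E x y).filter (fun x' => x' ≠ z)).biUnion (fun x' => {x'} ×ˢ (hull H x' z)))
  have k10 := card_union_le (((E x y).filter (fun y' => y' ≠ z)).biUnion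
    (fun y' => (hull H y' z) ×ˢ {y'}))
        (((E x y).filter (fun x' => x' ≠ z)).biUnion (fun x' => {x'} ×ˢ (hull H x' z)))
  rw [card_product, card_product] at k8
  rw [card_product] at k9
  have q1 := m1 _ k1
  have q2 := m1 _ k2
  have q3 := m1 _ k3
  omega

/-- One relation in the shadow. -/
theorem shadow_one [Fintype V] {r : ℕ} (hr : 3 ≤ r) {H : Finset (Finset V)} (hH : FourFree r H)
    (g : ℕ) (hg : 1 ≤ g) (F : V → V → Prop) (hF : FacNormLE F g)
    (hsh : ∀ x y, F x y → x ≠ y ∧ ∃ e ∈ H, x ∈ e ∧ y ∈ e) :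
    Nat.card {p : V × V // F p.1 p.2} ^ 2 ≤
      2 ^ (766 * g ^ 4) * (33 * r ^ 2) * Fintype.card V ^ 3 := by
  classical
  have hch : ∀ x y, F x y → ∃ (e : Finset V) (z : V), e ∈ H ∧ x ∈ e ∧ y ∈ e ∧ z ∈ e ∧ z ≠ x ∧
      z ≠ y := by
    intro x y h
    obtain ⟨hne, e, he, hx, hy⟩ := hsh x y h
    have h1 : 0 < #(e \ {x, y}) := by
      rw [card_sdiff_of_subset (by
        intro w hw
        rw [mem_insert, mem_singleton] at hw
        rcases hw with rfl | rfl <;> assumption), hH.1 e he, card_pair hne]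
      omega
    obtain ⟨z, hz⟩ := card_pos.mp h1
    rw [mem_sdiff, mem_insert, mem_singleton] at hz
    push Not at hz
    exact ⟨e, z, he, hx, hy, hz.1, hz.2.1, hz.2.2⟩
  choose! E lab hEl using hch
  have := labelledK F g (33 * r ^ 2) hg hF lab (by
    intro A B hAB C z hC
    refine few_cells hr hH A B E lab (fun x hx y hy => ?_) C z hC
    obtain ⟨h1, h2, h3, h4, h5, h6⟩ := hEl x y (hAB x hx y hy)
    exact ⟨(hsh x y (hAB x hx y hy)).1, h1, h2, h3, h4, h5, h6⟩)
  rw [Nat.card_eq_fintype_card (α := V)] at this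
  calc _ ≤ _ := this
    _ = _ := by ring

/-- **Union.** -/
theorem shadow_union [Fintype V] {r : ℕ} (hr : 3 ≤ r) {H : Finset (Finset V)} (hH : FourFree r H)
    (g t : ℕ) (hg : 1 ≤ g) (F : Fin t → V → V → Prop) (hF : ∀ i, FacNormLE (F i) g)
    (hsh : ∀ i x y, F i x y → x ≠ y ∧ ∃ e ∈ H, x ∈ e ∧ y ∈ e)
    (hcov : ∀ e ∈ H, ∃ i, ∃ x ∈ e, ∃ y ∈ e, F i x y) :
    #H ^ 2 ≤ (18 * r * t * 2 ^ (383 * g ^ 4)) ^ 2 * Fintype.card V ^ 3 := by
  classical
  set N : Fin t → ℕ := fun i => Nat.card {p : V × V // F i p.1 p.2} with hN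
  have h1 : ∀ i, N i ^ 2 ≤ 2 ^ (766 * g ^ 4) * (33 * r ^ 2) * Fintype.card V ^ 3 := fun i =>
    shadow_one hr hH g hg (F i) (hF i) (hsh i)
  have h2 : #H ≤ ∑ i, 3 * N i := by
    have hsub : H ⊆ univ.biUnion (fun i => (univ.filter (fun p : V × V => F i p.1 p.2)).biUnion
        (fun p => through H p.1 p.2)) := by
      intro e he
      obtain ⟨i, x, hx, y, hy, hFi⟩ := hcov e he
      refine mem_biUnion.mpr ⟨i, mem_univ _, mem_biUnion.mpr ⟨(x, y), mem_filter.mpr
        ⟨mem_univ _, hFi⟩, mem_filter.mpr ⟨he, hx, hy⟩⟩⟩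
    refine (card_le_card hsub).trans (card_biUnion_le.trans (sum_le_sum fun i _ => ?_))
    have e1 : N i = #(univ.filter (fun p : V × V => F i p.1 p.2)) := by
      rw [hN]
      simp only
      rw [Nat.card_eq_fintype_card, Fintype.card_subtype]
    rw [e1, mul_comm]
    refine card_biUnion_le_card_mul _ _ _ fun p hp => ?_
    exact card_through (by omega) hH (hsh i p.1 p.2 (mem_filter.mp hp).2).1
  have h3 : (∑ i, 3 * N i) ^ 2 ≤ t * ∑ i, (3 * N i) ^ 2 := by
    have := sq_sum_le_card_mul_sum_sq (s := (Finset.univ : Finset (Fin t)))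
      (f := fun i => (3 * N i : ℤ))
    rw [Finset.card_univ, Fintype.card_fin] at this
    exact_mod_cast this
  calc #H ^ 2 ≤ (∑ i, 3 * N i) ^ 2 := Nat.pow_le_pow_left h2 2
    _ ≤ t * ∑ i, (3 * N i) ^ 2 := h3
    _ ≤ t * ∑ _i : Fin t, 9 * (2 ^ (766 * g ^ 4) * (33 * r ^ 2) * Fintype.card V ^ 3) := by
        refine Nat.mul_le_mul_left _ (sum_le_sum fun i _ => ?_)
        have := h1 i
        calc (3 * N i) ^ 2 = 9 * N i ^ 2 := by ring
          _ ≤ _ := Nat.mul_le_mul_left _ this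
    _ = 297 * (r ^ 2 * t ^ 2 * 2 ^ (766 * g ^ 4) * Fintype.card V ^ 3) := by
        rw [sum_const, card_univ, Fintype.card_fin, smul_eq_mul]
        ring
    _ ≤ 324 * (r ^ 2 * t ^ 2 * 2 ^ (766 * g ^ 4) * Fintype.card V ^ 3) :=
        Nat.mul_le_mul_right _ (by norm_num)
    _ = _ := by
        rw [mul_pow, mul_pow, mul_pow, ← pow_mul, show 383 * g ^ 4 * 2 = 766 * g ^ 4 by ring]
        ring

end hyper

end Pool.Agent.H700.GN
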