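import Pool.Agent.H700.GN.Sharp

/-!
# Uniform hypergraphs of lines through the points of a conic
-/

set_option autoImplicit false

namespace Pool.Agent.H700.GN

open Finset

variable (r p : ℕ) [Fact p.Prime]

/-- the projection along the direction `(1, j, j ^ 2)` -/
def proj (j : Fin r) (v : ZMod p × ZMod p × ZMod p) : ZMod p × ZMod p :=
  (v.2.1 - (j : ℕ) * v.1, v.2.2 - (j : ℕ) ^ 2 * v.1)

/-- the edge of the point `v` -/
def edge (v : ZMod p × ZMod p × ZMod p) : Finset (Fin r × (ZMod p × ZMod p)) :=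
  univ.image fun j => (j, proj r p j v)

/-- the hypergraph -/
def conic : Finset (Finset (Fin r × (ZMod p × ZMod p))) :=
  (univ : Finset (ZMod p × ZMod p × ZMod p)).image (edge r p)

variable {r p}

theorem mem_edge {v : ZMod p × ZMod p × ZMod p} {w : Fin r × (ZMod p × ZMod p)} :
    w ∈ edge r p v ↔ w.2 = proj r p w.1 v := by
  unfold edge
  rw [mem_image]
  constructor
  · rintro ⟨j, _, rfl⟩
    rfl
  · intro h
    exact ⟨w.1, mem_univ _, by rw [← h]⟩

theorem card_edge (v : ZMod p × ZMod p × ZMod p) : #(edge r p v) = r := by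
  unfold edge
  rw [card_image_of_injective _ (fun j j' h => (Prod.mk.inj h).1), card_univ, Fintype.card_fin]

theorem cast_inj (hrp : r ≤ p) {j j' : Fin r} (h : ((j : ℕ) : ZMod p) = ((j' : ℕ) : ZMod p)) :
    j = j' := by
  rw [ZMod.natCast_eq_natCast_iff'] at h
  rw [Nat.mod_eq_of_lt (j.2.trans_le hrp), Nat.mod_eq_of_lt (j'.2.trans_le hrp)] at h
  exact Fin.ext h

theorem proj_P1 (hrp : r ≤ p) (j j' : Fin r) (v w : ZMod p × ZMod p × ZMod p)
    (h : proj r p j v = proj r p j w) (h' : proj r p j' v = proj r p j' w) (hne : j ≠ j') :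
    v = w := by
  obtain ⟨a, b, c⟩ := v
  obtain ⟨a', b', c'⟩ := w
  simp only [proj, Prod.mk.injEq] at h h'
  have h1 : (((j : ℕ) : ZMod p) - ((j' : ℕ) : ZMod p)) * (a - a') = 0 := by
    linear_combination h'.1 - h.1
  rcases mul_eq_zero.mp h1 with h2 | h2
  · exact absurd (cast_inj hrp (sub_eq_zero.mp h2)) hne
  · have h3 : a = a' := sub_eq_zero.mp h2
    subst h3
    have h4 : b = b' := by linear_combination h.1
    have h5 : c = c' := by linear_combination h.2
    rw [h4, h5]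

theorem proj_P2 (hrp : r ≤ p) (j1 j2 j3 : Fin r) (u v w : ZMod p × ZMod p × ZMod p)
    (huv : u ≠ v) (hvw : v ≠ w) (huw : u ≠ w) (h1 : proj r p j1 u = proj r p j1 v)
    (h2 : proj r p j2 v = proj r p j2 w) (h3 : proj r p j3 u = proj r p j3 w) :
    j1 = j2 ∧ j3 = j2 := by
  obtain ⟨a, b, c⟩ := u
  obtain ⟨a', b', c'⟩ := v
  obtain ⟨a'', b'', c''⟩ := w
  simp only [proj, Prod.mk.injEq] at h1 h2 h3
  have n1 : a - a' ≠ 0 := by
    intro h
    have e : a = a' := sub_eq_zero.mp h
    subst e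
    apply huv
    have h4 : b = b' := by linear_combination h1.1
    have h5 : c = c' := by linear_combination h1.2
    rw [h4, h5]
  have n2 : a' - a'' ≠ 0 := by
    intro h
    have e : a' = a'' := sub_eq_zero.mp h
    subst e
    apply hvw
    have h4 : b' = b'' := by linear_combination h2.1
    have h5 : c' = c'' := by linear_combination h2.2
    rw [h4, h5]
  have n3 : a - a'' ≠ 0 := by
    intro h
    have e : a = a'' := sub_eq_zero.mp h
    subst e
    apply huw
    have h4 : b = b'' := by linear_combination h3.1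
    have h5 : c = c'' := by linear_combination h3.2
    rw [h4, h5]
  set s1 : ZMod p := ((j1 : ℕ) : ZMod p) with hs1
  set s2 : ZMod p := ((j2 : ℕ) : ZMod p) with hs2
  set s3 : ZMod p := ((j3 : ℕ) : ZMod p) with hs3
  -- two linear relations
  have k1 : (a - a'') * s3 = (a - a') * s1 + (a' - a'') * s2 := by
    linear_combination h1.1 + h2.1 - h3.1
  have k2 : (a - a'') * s3 ^ 2 = (a - a') * s1 ^ 2 + (a' - a'') * s2 ^ 2 := by
    linear_combination h1.2 + h2.2 - h3.2
  have k3 : (a - a') * (a' - a'') * (s1 - s2) ^ 2 = 0 := by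
    linear_combination (-(a - a'')) * k2 + ((a - a'') * s3 + ((a - a') * s1 + (a' - a'') * s2)) * k1
  have k4 : s1 = s2 := by
    rcases mul_eq_zero.mp k3 with h | h
    · exact absurd h (mul_ne_zero n1 n2)
    · exact sub_eq_zero.mp (pow_eq_zero_iff (by norm_num) |>.mp h)
  have k5 : s3 = s2 := by
    have : (a - a'') * (s3 - s2) = 0 := by
      rw [k4] at k1
      linear_combination k1
    rcases mul_eq_zero.mp this with h | h
    · exact absurd h n3
    · exact sub_eq_zero.mp h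
  exact ⟨cast_inj hrp k4, cast_inj hrp k5⟩

theorem edge_inj (hr : 2 ≤ r) (hrp : r ≤ p) : Function.Injective (edge r p) := by
  intro v w h
  have h0 : proj r p ⟨0, by omega⟩ v = proj r p ⟨0, by omega⟩ w := by
    have := mem_edge.mp (h ▸ (mem_edge.mpr rfl :
      ((⟨0, by omega⟩, proj r p ⟨0, by omega⟩ v) : Fin r × (ZMod p × ZMod p)) ∈ edge r p v))
    exact this
  have h1 : proj r p ⟨1, by omega⟩ v = proj r p ⟨1, by omega⟩ w := by
    have := mem_edge.mp (h ▸ (mem_edge.mpr rfl :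
      ((⟨1, by omega⟩, proj r p ⟨1, by omega⟩ v) : Fin r × (ZMod p × ZMod p)) ∈ edge r p v))
    exact this
  exact proj_P1 hrp _ _ v w h0 h1 (by simp)

theorem card_conic (hr : 2 ≤ r) (hrp : r ≤ p) : #(conic r p) = p ^ 3 := by
  unfold conic
  rw [card_image_of_injective _ (edge_inj hr hrp), card_univ]
  simp only [Fintype.card_prod, ZMod.card]
  ring

theorem conic_free (hr : 2 ≤ r) (hrp : r ≤ p) : FourFree r (conic r p) := by
  refine ⟨fun e he => ?_, fun S hS h4 => ?_⟩
  · obtain ⟨v, _, rfl⟩ := mem_image.mp he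
    exact card_edge v
  · obtain ⟨T, -, rfl⟩ := subset_image_iff.mp hS
    rw [card_image_of_injective _ (edge_inj hr hrp)] at h4
    have h := four_points (proj r p) (proj_P1 hrp) (proj_P2 hrp) T h4
    rw [Fintype.card_fin] at h
    have h5 : ∑ j : Fin r, #(T.image (proj r p j)) ≤ #((T.image (edge r p)).biUnion id) := by
      have e1 : #((T.image (edge r p)).biUnion id) =
          ∑ j : Fin r, #{w ∈ (T.image (edge r p)).biUnion id | w.1 = j} :=
        card_eq_sum_card_fiberwise fun w _ => mem_coe.mpr (mem_univ _)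
      rw [e1]
      refine sum_le_sum fun j _ => ?_
      refine card_le_card_of_injOn (fun q => (j, q)) ?_ (fun q _ q' _ hq => (Prod.mk.inj hq).2)
      intro q hq
      obtain ⟨v, hv, rfl⟩ := mem_image.mp (mem_coe.mp hq)
      rw [mem_coe, mem_filter]
      refine ⟨mem_biUnion.mpr ⟨edge r p v, mem_image_of_mem _ hv, ?_⟩, rfl⟩
      exact mem_edge.mpr rfl
    omega

/-- the relation between the first two classes -/
def rel (r p : ℕ) (x y : Fin r × (ZMod p × ZMod p)) : Prop :=
  (if (x.1 : ℕ) = 0 then Sum.inl (x.2.1 - x.2.2) else Sum.inr false : ZMod p ⊕ Bool) =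
    (if (y.1 : ℕ) = 1 then Sum.inl (y.2.1 - y.2.2) else Sum.inr true)

theorem rel_iff (r p : ℕ) (x y : Fin r × (ZMod p × ZMod p)) :
    rel r p x y ↔ (x.1 : ℕ) = 0 ∧ (y.1 : ℕ) = 1 ∧ x.2.1 - x.2.2 = y.2.1 - y.2.2 := by
  unfold rel
  by_cases h1 : (x.1 : ℕ) = 0
  · by_cases h2 : (y.1 : ℕ) = 1
    · simp [h1, h2]
    · simp [h1, h2]
  · by_cases h2 : (y.1 : ℕ) = 1
    · simp [h1, h2]
    · simp [h1, h2]

theorem rel_shadow (x y : Fin r × (ZMod p × ZMod p)) (h : rel r p x y) :
    x ≠ y ∧ ∃ e ∈ conic r p, x ∈ e ∧ y ∈ e := by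
  rw [rel_iff] at h
  obtain ⟨hx, hy, hxy⟩ := h
  refine ⟨fun h => by rw [h] at hx; omega, edge r p (x.2.1 - y.2.1, x.2.1, x.2.2),
    mem_image_of_mem _ (mem_univ _), ?_, ?_⟩
  · rw [mem_edge]
    unfold proj
    rw [hx]
    simp
  · rw [mem_edge]
    unfold proj
    rw [hy]
    ext
    · simp
    · simp
      linear_combination hxy

theorem rel_cover (hr : 2 ≤ r) (e : Finset (Fin r × (ZMod p × ZMod p))) (he : e ∈ conic r p) :
    ∃ x ∈ e, ∃ y ∈ e, rel r p x y := by
  obtain ⟨v, _, rfl⟩ := mem_image.mp he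
  refine ⟨(⟨0, by omega⟩, proj r p ⟨0, by omega⟩ v), mem_edge.mpr rfl,
    (⟨1, by omega⟩, proj r p ⟨1, by omega⟩ v), mem_edge.mpr rfl, ?_⟩
  rw [rel_iff]
  refine ⟨rfl, rfl, ?_⟩
  simp [proj]

end Pool.Agent.H700.GN
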