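import Pool.Agent.H700.GN.Empty
import Pool.Graph.R_pool_sql_team_seeded_b0a926ef.R533.VC.Rand

/-!
# Dense patterns of small factorization norm contain large rectangles of ones
-/

set_option autoImplicit false

namespace Pool.Agent.H700.GN

open Finset Pool.Agent.R533.VC
open scoped RealInnerProductSpace

variable {X Y Z ι : Type*} [Fintype ι]

/-- There are signs such that the signed sum is short. -/
theorem exists_signs {κ : Type*} [DecidableEq κ] (w : κ → EuclideanSpace ℝ ι) (s : Finset κ) :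
    ∃ ε : κ → Bool, ‖∑ i ∈ s, (if ε i = true then (1 : ℝ) else -1) • w i‖ ^ 2 ≤
      ∑ i ∈ s, ‖w i‖ ^ 2 := by
  induction s using Finset.induction_on with
  | empty => exact ⟨fun _ => true, by simp⟩
  | insert a s ha ih =>
    obtain ⟨ε, hε⟩ := ih
    set S := ∑ i ∈ s, (if ε i = true then (1 : ℝ) else -1) • w i with hS
    have hupd : ∀ b : Bool,
        ∑ i ∈ s, (if Function.update ε a b i = true then (1 : ℝ) else -1) • w i = S := by
      intro b
      refine sum_congr rfl fun i hi => ?_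
      have : i ≠ a := fun h => ha (h ▸ hi)
      rw [Function.update_of_ne this]
    by_cases h : ⟪w a, S⟫ ≤ 0
    · refine ⟨Function.update ε a true, ?_⟩
      rw [sum_insert ha, sum_insert ha, hupd, Function.update_self, if_pos rfl, one_smul,
        norm_add_sq_real]
      linarith
    · refine ⟨Function.update ε a false, ?_⟩
      rw [sum_insert ha, sum_insert ha, hupd, Function.update_self, if_neg (by simp), neg_smul,
        one_smul, norm_add_sq_real, inner_neg_left, norm_neg]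
      linarith

/-- The inner products are the entries of the pattern. -/
def Fac' (F : X → Y → Bool) (γ : ℝ) (u : X → EuclideanSpace ℝ ι) (v : Y → EuclideanSpace ℝ ι) :
    Prop :=
  (∀ x, ‖u x‖ ^ 2 ≤ γ) ∧ (∀ y, ‖v y‖ ^ 2 ≤ γ) ∧ ∀ x y, ⟪u x, v y⟫ = if F x y = true then 1 else 0

/-- The VC dimension of a pattern of small factorization norm. -/
theorem vc_of_fac (F : X → Y → Bool) (g : ℕ) (u : X → EuclideanSpace ℝ ι)
    (v : Y → EuclideanSpace ℝ ι) (h : Fac' F g u v) : VCdim F (4 * g ^ 2) := by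
  classical
  intro k x hS
  obtain ⟨ε, hε⟩ := exists_signs (fun i : Fin k => u (x i)) univ
  have hsum : ∑ i : Fin k, ‖u (x i)‖ ^ 2 ≤ k * g := by
    refine (sum_le_sum fun i _ => h.1 (x i)).trans (le_of_eq ?_)
    rw [sum_const, card_univ, Fintype.card_fin, nsmul_eq_mul]
  -- half of the signs may be taken positive
  obtain ⟨b, hb1, hb2⟩ : ∃ b : Fin k → Bool, k ≤ 2 * #{i | b i = true} ∧
      ‖∑ i : Fin k, (if b i = true then (1 : ℝ) else -1) • u (x i)‖ ^ 2 ≤ k * g := by
    have hc := card_filter_add_card_filter_not (s := (univ : Finset (Fin k)))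
      (fun i => ε i = true)
    rw [card_univ, Fintype.card_fin] at hc
    by_cases h2 : k ≤ 2 * #{i | ε i = true}
    · exact ⟨ε, h2, hε.trans hsum⟩
    · refine ⟨fun i => !(ε i), ?_, ?_⟩
      · have e1 : (univ.filter fun i => (!(ε i)) = true) = univ.filter fun i => ¬ ε i = true := by
          ext i
          simp
        rw [e1]
        omega
      · have e1 : ∑ i : Fin k, (if (!(ε i)) = true then (1 : ℝ) else -1) • u (x i) =
            - ∑ i : Fin k, (if ε i = true then (1 : ℝ) else -1) • u (x i) := by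
          rw [← sum_neg_distrib]
          refine sum_congr rfl fun i _ => ?_
          cases ε i <;> simp
        rw [e1, norm_neg]
        exact hε.trans hsum
  obtain ⟨y, hy⟩ := hS b
  set S := ∑ i : Fin k, (if b i = true then (1 : ℝ) else -1) • u (x i) with hSdef
  have hin : ⟪S, v y⟫ = (#{i | b i = true} : ℝ) := by
    rw [hSdef, sum_inner, card_filter]
    push_cast
    refine sum_congr rfl fun i _ => ?_
    rw [inner_smul_left, h.2.2, hy i]
    cases b i <;> simp
  have h1 : (#{i | b i = true} : ℝ) ≤ ‖S‖ * ‖v y‖ := by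
    rw [← hin]
    exact real_inner_le_norm _ _
  have h2 : (#{i | b i = true} : ℝ) ^ 2 ≤ (k * g) * g := by
    calc (#{i | b i = true} : ℝ) ^ 2 ≤ (‖S‖ * ‖v y‖) ^ 2 :=
          pow_le_pow_left₀ (Nat.cast_nonneg _) h1 2
      _ = ‖S‖ ^ 2 * ‖v y‖ ^ 2 := by ring
      _ ≤ _ := mul_le_mul hb2 (h.2.1 y) (sq_nonneg _) (by positivity)
  have h3 : #{i | b i = true} ^ 2 ≤ (k * g) * g := by exact_mod_cast h2
  have h4 : k * k ≤ k * (4 * g ^ 2) := by
    calc k * k ≤ (2 * #{i | b i = true}) * (2 * #{i | b i = true}) := Nat.mul_le_mul hb1 hb1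
      _ = 4 * #{i | b i = true} ^ 2 := by ring
      _ ≤ 4 * ((k * g) * g) := Nat.mul_le_mul_left _ h3
      _ = _ := by ring
  rcases Nat.eq_zero_or_pos k with h0 | h0
  · omega
  · exact Nat.le_of_mul_le_mul_left h4 h0

/-- the vector `(1, s u)` -/
noncomputable def ext1 (s : ℝ) (u : EuclideanSpace ℝ ι) : EuclideanSpace ℝ (Option ι) :=
  WithLp.toLp 2 (fun o => match o with
    | none => 1
    | some i => s * u i)

theorem inner_ext1 (s t : ℝ) (u v : EuclideanSpace ℝ ι) :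
    ⟪ext1 s u, ext1 t v⟫ = 1 + s * t * ⟪u, v⟫ := by
  rw [PiLp.inner_apply, PiLp.inner_apply, Fintype.sum_option, mul_sum]
  congr 1
  · simp [ext1]
  · refine sum_congr rfl fun i _ => ?_
    simp only [ext1, RCLike.inner_apply, conj_trivial]
    ring

theorem norm_ext1 (s : ℝ) (hs : s ^ 2 = 1) (u : EuclideanSpace ℝ ι) :
    ‖ext1 s u‖ ^ 2 = 1 + ‖u‖ ^ 2 := by
  rw [← real_inner_self_eq_norm_sq, inner_ext1, real_inner_self_eq_norm_sq]
  nlinarith

/-- **Few zeros.** -/
theorem few_zeros (F : X → Y → Bool) (g : ℕ) (hg : 1 ≤ g) (u : X → EuclideanSpace ℝ ι)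
    (v : Y → EuclideanSpace ℝ ι) (h : Fac' F g u v) (A : Finset X) (B : Finset Y)
    (hrow : ∀ x ∈ A, 2 ^ (64 * g ^ 2) * (2 * #{y ∈ B | F x y = false}) ≤ #B)
    (hcol : ∀ y ∈ B, 2 ^ (64 * g ^ 2) * (2 * #{x ∈ A | F x y = false}) ≤ #A) :
    ∃ A' ⊆ A, ∃ B' ⊆ B, (∀ x ∈ A', ∀ y ∈ B', F x y = true) ∧
      #A * #B ≤ 2 ^ (64 * g ^ 2) * (#A' * #B') := by
  classical
  have hg1 : (1 : ℝ) ≤ g := by exact_mod_cast hg
  set θ := Real.exp (-(8 * ((g : ℝ) + 1) ^ 2)) with hθ
  have hθ0 : 0 < θ := Real.exp_pos _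
  have hθ1 : 1 ≤ (2 : ℝ) ^ (64 * g ^ 2) * θ := by
    have e1 : Real.exp (8 * ((g : ℝ) + 1) ^ 2) ≤ (2 : ℝ) ^ (64 * g ^ 2) := by
      calc Real.exp (8 * ((g : ℝ) + 1) ^ 2) ≤ Real.exp (((32 * g ^ 2 : ℕ) : ℝ) * 1) := by
            rw [Real.exp_le_exp]
            push_cast
            nlinarith
        _ = Real.exp 1 ^ (32 * g ^ 2) := Real.exp_nat_mul _ _
        _ ≤ 4 ^ (32 * g ^ 2) := by
            refine pow_le_pow_left₀ (Real.exp_pos _).le ?_ _
            have := Real.exp_one_lt_d9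
            linarith
        _ = (2 : ℝ) ^ (64 * g ^ 2) := by
            rw [show (4 : ℝ) = 2 ^ 2 by norm_num, ← pow_mul]
            congr 1
            ring
    have e2 : Real.exp (8 * ((g : ℝ) + 1) ^ 2) * θ = 1 := by
      rw [hθ, ← Real.exp_add]
      simp
    nlinarith
  have hfac : Fac (fun x y => F x y = false) ((g : ℝ) + 1) A B
      (fun x => ext1 (-1) (u x)) (fun y => ext1 1 (v y)) := by
    refine ⟨fun x _ => ?_, fun y _ => ?_, fun x _ y _ hF => ?_, fun x _ y _ hF => ?_⟩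
    · rw [norm_ext1 _ (by norm_num)]
      have := h.1 x
      linarith
    · rw [norm_ext1 _ (by norm_num)]
      have := h.2.1 y
      linarith
    · rw [inner_ext1, h.2.2, if_neg (by rw [hF]; simp)]
      ring
    · rw [inner_ext1, h.2.2, if_pos (by simpa using hF)]
      ring
  have hc1 : ∀ x, (@filter Y (fun y => F x y = false) (fun _ => Classical.propDecidable _) B) =
      B.filter (fun y => F x y = false) := fun x => by ext y; simp only [mem_filter]
  have hc2 : ∀ y, (@filter X (fun x => F x y = false) (fun _ => Classical.propDecidable _) A) =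
      A.filter (fun x => F x y = false) := fun y => by ext x; simp only [mem_filter]
  obtain ⟨A', hA', B', hB', hemp, hc⟩ := exists_empty (fun x y => F x y = false) ((g : ℝ) + 1)
    (by positivity) A B _ _ hfac (fun x hx => by
      rw [hc1]
      have h1 := hrow x hx
      have h2 : (2 : ℝ) ^ (64 * g ^ 2) * (2 * #{y ∈ B | F x y = false}) ≤ #B := by
        exact_mod_cast h1
      calc 2 * (#{y ∈ B | F x y = false} : ℝ) ≤
          ((2 : ℝ) ^ (64 * g ^ 2) * θ) * (2 * #{y ∈ B | F x y = false}) :=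
            le_mul_of_one_le_left (by positivity) hθ1
        _ = θ * ((2 : ℝ) ^ (64 * g ^ 2) * (2 * #{y ∈ B | F x y = false})) := by ring
        _ ≤ θ * #B := mul_le_mul_of_nonneg_left h2 hθ0.le) (fun y hy => by
      rw [hc2]
      have h1 := hcol y hy
      have h2 : (2 : ℝ) ^ (64 * g ^ 2) * (2 * #{x ∈ A | F x y = false}) ≤ #A := by
        exact_mod_cast h1
      calc 2 * (#{x ∈ A | F x y = false} : ℝ) ≤
          ((2 : ℝ) ^ (64 * g ^ 2) * θ) * (2 * #{x ∈ A | F x y = false}) :=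
            le_mul_of_one_le_left (by positivity) hθ1
        _ = θ * ((2 : ℝ) ^ (64 * g ^ 2) * (2 * #{x ∈ A | F x y = false})) := by ring
        _ ≤ θ * #A := mul_le_mul_of_nonneg_left h2 hθ0.le)
  refine ⟨A', hA', B', hB', fun x hx y hy => by simpa using hemp x hx y hy, ?_⟩
  have h3 : (#A * #B : ℝ) ≤ 2 ^ (64 * g ^ 2) * (#A' * #B') := by
    calc (#A * #B : ℝ) ≤ ((2 : ℝ) ^ (64 * g ^ 2) * θ) * (#A * #B) :=
          le_mul_of_one_le_left (by positivity) hθ1
      _ = (2 : ℝ) ^ (64 * g ^ 2) * (θ * (#A * #B)) := by ring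
      _ ≤ _ := mul_le_mul_of_nonneg_left hc (by positivity)
  exact_mod_cast h3

/-- Averaging: a large piece of large density. -/
theorem average' {κ : Type*} (S : Finset κ) (w e : κ → ℕ) (a K N W : ℕ) (hS : S.Nonempty)
    (hN : #S ≤ N) (hw : ∑ i ∈ S, w i = W) (he : a * W ≤ K * ∑ i ∈ S, e i)
    (hea : ∀ i ∈ S, e i ≤ a * w i) (ha : 0 < a) :
    ∃ i ∈ S, W ≤ 2 * K * N * w i ∧ a * w i ≤ 2 * K * e i := by
  have hN0 : 0 < N := lt_of_lt_of_le hS.card_pos hN
  obtain ⟨i, hi, h⟩ := exists_le_of_sum_le (s := S) (f := fun i => a * W + N * (a * w i))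
    (g := fun i => N * (2 * K * e i)) hS (by
      rw [sum_add_distrib, sum_const, smul_eq_mul, ← mul_sum, ← mul_sum, ← mul_sum, ← mul_sum, hw]
      have h1 : #S * (a * W) ≤ N * (a * W) := Nat.mul_le_mul_right _ hN
      have h2 : N * (a * W) ≤ N * (K * ∑ i ∈ S, e i) := Nat.mul_le_mul_left _ he
      have h3 : N * (2 * K * ∑ i ∈ S, e i) = 2 * (N * (K * ∑ i ∈ S, e i)) := by ring
      omega)
  refine ⟨i, hi, ?_, ?_⟩
  · have h1 : a * W ≤ a * (2 * K * N * w i) := by
      calc a * W ≤ a * W + N * (a * w i) := Nat.le_add_right _ _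
        _ ≤ N * (2 * K * e i) := h
        _ ≤ N * (2 * K * (a * w i)) := Nat.mul_le_mul_left _ (Nat.mul_le_mul_left _ (hea i hi))
        _ = _ := by ring
    exact Nat.le_of_mul_le_mul_left h1 ha
  · have h1 : N * (a * w i) ≤ N * (2 * K * e i) := (Nat.le_add_left _ _).trans h
    exact Nat.le_of_mul_le_mul_left h1 hN0

/-- **Dense patterns of small factorization norm contain large rectangles of ones.** -/
theorem dense (F : X → Y → Bool) (g : ℕ) (hg : 1 ≤ g) (u : X → EuclideanSpace ℝ ι)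
    (v : Y → EuclideanSpace ℝ ι) (h : Fac' F g u v) (A : Finset X) (B : Finset Y)
    (hA : A.Nonempty) (hB : B.Nonempty)
    (hd : #A * #B ≤ 1024 * g ^ 2 * ∑ y ∈ B, #{x ∈ A | F x y = true}) :
    ∃ A' ⊆ A, ∃ B' ⊆ B, (∀ x ∈ A', ∀ y ∈ B', F x y = true) ∧
      #A * #B ≤ 2 ^ (763 * g ^ 4) * (#A' * #B') := by
  classical
  set K := 1024 * g ^ 2 with hK
  have hg2 : 1 ≤ g ^ 2 := Nat.one_le_pow _ _ hg
  have hg4 : g ^ 2 ≤ g ^ 4 := Nat.pow_le_pow_right hg (by norm_num)
  have hg4' : 1 ≤ g ^ 4 := hg2.trans hg4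
  have hgp : g ^ 2 ≤ 2 ^ (g ^ 2) := Nat.lt_two_pow_self.le
  have hK0 : 0 < K := by omega
  have hK1 : K ≤ 2 ^ (11 * g ^ 2) := by
    calc K = 2 ^ 10 * g ^ 2 := by rw [hK]
      _ ≤ 2 ^ (10 * g ^ 2) * 2 ^ (g ^ 2) :=
          Nat.mul_le_mul (Nat.pow_le_pow_right (by norm_num) (by omega)) hgp
      _ = 2 ^ (11 * g ^ 2) := by rw [← pow_add]; congr 1; ring
  set e := 2 ^ (79 * g ^ 2) with he
  have he1 : 1 ≤ e := Nat.one_le_two_pow
  have heK : 2 ^ (64 * g ^ 2) * (16 * K) ≤ e := by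
    calc 2 ^ (64 * g ^ 2) * (16 * K) ≤ 2 ^ (64 * g ^ 2) * (2 ^ (4 * g ^ 2) * 2 ^ (11 * g ^ 2)) := by
          refine Nat.mul_le_mul_left _ (Nat.mul_le_mul ?_ hK1)
          calc 16 = 2 ^ 4 := by norm_num
            _ ≤ 2 ^ (4 * g ^ 2) := Nat.pow_le_pow_right (by norm_num) (by omega)
      _ = e := by rw [he, ← pow_add, ← pow_add]; congr 1; ring
  have heK4 : 4 * K ≤ e := by
    refine le_trans ?_ heK
    have : 1 ≤ 2 ^ (64 * g ^ 2) := Nat.one_le_two_pow
    nlinarith
  have hgrowth : Growth F (4 * g ^ 2) := growth_of_vc F _ (vc_of_fac F g u v h)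
  obtain ⟨P, hsep, cen, hcen⟩ := cover F A B e
  have hP : #P ≤ 2 ^ (674 * g ^ 4) := by
    refine (pack F (4 * g ^ 2) hgrowth A hA P e he1 hsep (80 * g ^ 2) (4 * g ^ 2) ?_ ?_).trans ?_
    · calc 2 * e = 2 ^ (79 * g ^ 2 + 1) := by rw [he, pow_succ]; ring
        _ ≤ _ := Nat.pow_le_pow_right (by norm_num) (by omega)
    · calc 2 * (4 * g ^ 2) = 2 ^ 3 * g ^ 2 := by ring
        _ ≤ 2 ^ (3 * g ^ 2) * 2 ^ (g ^ 2) :=
            Nat.mul_le_mul (Nat.pow_le_pow_right (by norm_num) (by omega)) hgp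
        _ = _ := by rw [← pow_add]; congr 1; ring
    · refine Nat.pow_le_pow_right (by norm_num) ?_
      have : 2 * (4 * g ^ 2) * (80 * g ^ 2 + 4 * g ^ 2) = 672 * g ^ 4 := by ring
      omega
  have hPne : P.Nonempty := by
    obtain ⟨y, hy⟩ := hB
    exact ⟨cen y, (hcen y hy).1⟩
  -- a good cell
  obtain ⟨p, hp, hp1, hp2⟩ := average' P (fun p => #{y ∈ B | cen y = p})
    (fun p => ∑ y ∈ B with cen y = p, #{x ∈ A | F x y = true}) #A K (2 ^ (674 * g ^ 4)) #B hPne hP
    (card_eq_sum_card_fiberwise fun y hy => (hcen y hy).1).symm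
    (by
      rw [sum_fiberwise_of_maps_to (fun y hy => (hcen y hy).1)]
      exact hd)
    (fun p _ => by
      calc ∑ y ∈ B with cen y = p, #{x ∈ A | F x y = true} ≤ ∑ y ∈ B with cen y = p, #A :=
            sum_le_sum fun y _ => card_le_card (filter_subset _ _)
        _ = #A * #{y ∈ B | cen y = p} := by rw [sum_const, smul_eq_mul, mul_comm])
    hA.card_pos
  set Bp := B.filter (fun y => cen y = p) with hBp
  have hBpB : Bp ⊆ B := filter_subset _ _
  have hBpne : Bp.Nonempty := by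
    rw [nonempty_iff_ne_empty]
    intro h0
    rw [h0, card_empty, mul_zero] at hp1
    have := hB.card_pos
    omega
  have hclose : ∀ y ∈ Bp, e * dif F A y p ≤ #A := by
    intro y hy
    rw [hBp, mem_filter] at hy
    have := (hcen y hy.1).2
    rwa [hy.2] at this
  -- the neighbourhood of the centre
  set A1 := A.filter (fun x => F x p = true) with hA1
  have hA1A : #A ≤ 4 * K * #A1 := by
    obtain ⟨y, hy, hy2⟩ := exists_le_of_sum_le (s := Bp) (f := fun _ => #A)
      (g := fun y => 2 * K * #{x ∈ A | F x y = true}) hBpne (by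
        rw [sum_const, smul_eq_mul, ← mul_sum, mul_comm]
        exact hp2)
    have h1 : #{x ∈ A | F x y = true} ≤ #A1 + dif F A y p := by
      rw [dif]
      refine le_trans (card_le_card ?_) (card_union_le _ _)
      intro x hx
      rw [mem_filter] at hx
      rw [mem_union, hA1, mem_filter, mem_filter]
      by_cases hF : F x p = true
      · exact Or.inl ⟨hx.1, hF⟩
      · refine Or.inr ⟨hx.1, ?_⟩
        rw [hx.2]
        exact fun h => hF h.symm
    have h2 := hclose y hy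
    have h3 : 4 * K * dif F A y p ≤ #A := (Nat.mul_le_mul_right _ heK4).trans h2
    have h4 : 2 * K * #{x ∈ A | F x y = true} ≤ 2 * K * (#A1 + dif F A y p) :=
      Nat.mul_le_mul_left _ h1
    have h5 : 2 * (2 * K * (#A1 + dif F A y p)) = 4 * K * #A1 + 4 * K * dif F A y p := by ring
    have h6 : #A ≤ 2 * K * #{x ∈ A | F x y = true} := hy2
    omega
  have hA1ne : A1.Nonempty := by
    rw [nonempty_iff_ne_empty]
    intro h0
    rw [h0, card_empty, mul_zero] at hA1A
    have := hA.card_pos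
    omega
  have hzcol : ∀ y ∈ Bp, e * #{x ∈ A1 | F x y = false} ≤ 4 * K * #A1 := by
    intro y hy
    refine le_trans (Nat.mul_le_mul_left _ ?_) ((hclose y hy).trans hA1A)
    rw [dif]
    refine card_le_card ?_
    intro x hx
    rw [mem_filter, hA1, mem_filter] at hx
    rw [mem_filter, hx.2, hx.1.2]
    exact ⟨hx.1.1, by simp⟩
  -- the good rows
  set A2 := A1.filter (fun x => e * #{y ∈ Bp | F x y = false} ≤ 8 * K * #Bp) with hA2
  have hA2A1 : #A1 ≤ 2 * #A2 := by
    set n2 := #(A1.filter (fun x => ¬ e * #{y ∈ Bp | F x y = false} ≤ 8 * K * #Bp)) with hn2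
    have h4 : #A2 + n2 = #A1 := card_filter_add_card_filter_not _
    have h1 : ∑ x ∈ A1, #{y ∈ Bp | F x y = false} = ∑ y ∈ Bp, #{x ∈ A1 | F x y = false} := by
      simp only [card_filter]
      exact sum_comm
    have h2 : e * ∑ x ∈ A1, #{y ∈ Bp | F x y = false} ≤ 4 * K * #A1 * #Bp := by
      rw [h1, mul_sum]
      calc ∑ y ∈ Bp, e * #{x ∈ A1 | F x y = false} ≤ ∑ _y ∈ Bp, 4 * K * #A1 := sum_le_sum hzcol
        _ = _ := by rw [sum_const, smul_eq_mul, mul_comm]
    have h3 : n2 * (8 * K * #Bp) ≤ 4 * K * #A1 * #Bp := by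
      calc _ = ∑ x ∈ A1.filter (fun x => ¬ e * #{y ∈ Bp | F x y = false} ≤ 8 * K * #Bp),
            8 * K * #Bp := by rw [sum_const, smul_eq_mul]
        _ ≤ ∑ x ∈ A1.filter (fun x => ¬ e * #{y ∈ Bp | F x y = false} ≤ 8 * K * #Bp),
            e * #{y ∈ Bp | F x y = false} := sum_le_sum fun x hx => by
              have := (mem_filter.mp hx).2
              omega
        _ ≤ ∑ x ∈ A1, e * #{y ∈ Bp | F x y = false} :=
            sum_le_sum_of_subset (filter_subset _ _)
        _ = e * ∑ x ∈ A1, #{y ∈ Bp | F x y = false} := by rw [mul_sum]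
        _ ≤ _ := h2
    have h5 : (4 * K * #Bp) * (2 * n2) ≤ (4 * K * #Bp) * #A1 := by
      calc (4 * K * #Bp) * (2 * n2) = n2 * (8 * K * #Bp) := by ring
        _ ≤ 4 * K * #A1 * #Bp := h3
        _ = _ := by ring
    have h6 : 2 * n2 ≤ #A1 := Nat.le_of_mul_le_mul_left h5
      (Nat.mul_pos (Nat.mul_pos (by norm_num) hK0) hBpne.card_pos)
    omega
  have hA2A1s : A2 ⊆ A1 := filter_subset _ _
  obtain ⟨A', hA', B', hB', hall, hc⟩ := few_zeros F g hg u v h A2 Bp
    (fun x hx => by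
      have h1 := (mem_filter.mp hx).2
      have h2 : 8 * K * (2 ^ (64 * g ^ 2) * (2 * #{y ∈ Bp | F x y = false})) ≤ 8 * K * #Bp := by
        calc 8 * K * (2 ^ (64 * g ^ 2) * (2 * #{y ∈ Bp | F x y = false})) =
            (2 ^ (64 * g ^ 2) * (16 * K)) * #{y ∈ Bp | F x y = false} := by ring
          _ ≤ e * #{y ∈ Bp | F x y = false} := Nat.mul_le_mul_right _ heK
          _ ≤ _ := h1
      exact Nat.le_of_mul_le_mul_left h2 (by omega))
    (fun y hy => by
      have h1 : e * #{x ∈ A2 | F x y = false} ≤ 8 * K * #A2 := by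
        calc e * #{x ∈ A2 | F x y = false} ≤ e * #{x ∈ A1 | F x y = false} :=
              Nat.mul_le_mul_left _ (card_le_card (filter_subset_filter _ hA2A1s))
          _ ≤ 4 * K * #A1 := hzcol y hy
          _ ≤ 4 * K * (2 * #A2) := Nat.mul_le_mul_left _ hA2A1
          _ = _ := by ring
      have h2 : 8 * K * (2 ^ (64 * g ^ 2) * (2 * #{x ∈ A2 | F x y = false})) ≤ 8 * K * #A2 := by
        calc 8 * K * (2 ^ (64 * g ^ 2) * (2 * #{x ∈ A2 | F x y = false})) =
            (2 ^ (64 * g ^ 2) * (16 * K)) * #{x ∈ A2 | F x y = false} := by ring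
          _ ≤ e * #{x ∈ A2 | F x y = false} := Nat.mul_le_mul_right _ heK
          _ ≤ _ := h1
      exact Nat.le_of_mul_le_mul_left h2 (by omega))
  refine ⟨A', hA'.trans (hA2A1s.trans (filter_subset _ _)), B', hB'.trans hBpB, hall, ?_⟩
  calc #A * #B ≤ (4 * K * (2 * #A2)) * (2 * K * 2 ^ (674 * g ^ 4) * #Bp) :=
        Nat.mul_le_mul (hA1A.trans (Nat.mul_le_mul_left _ hA2A1)) hp1
    _ = (16 * (K * K) * 2 ^ (674 * g ^ 4)) * (#A2 * #Bp) := by ring
    _ ≤ (16 * (K * K) * 2 ^ (674 * g ^ 4)) * (2 ^ (64 * g ^ 2) * (#A' * #B')) :=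
        Nat.mul_le_mul_left _ hc
    _ = (16 * (K * K) * 2 ^ (674 * g ^ 4) * 2 ^ (64 * g ^ 2)) * (#A' * #B') := by ring
    _ ≤ 2 ^ (763 * g ^ 4) * (#A' * #B') := by
        refine Nat.mul_le_mul_right _ ?_
        calc 16 * (K * K) * 2 ^ (674 * g ^ 4) * 2 ^ (64 * g ^ 2) =
            2 ^ 24 * (g ^ 2 * g ^ 2) * 2 ^ (674 * g ^ 4) * 2 ^ (64 * g ^ 2) := by
              rw [hK]; ring
          _ ≤ 2 ^ 24 * 2 ^ (g ^ 4) * 2 ^ (674 * g ^ 4) * 2 ^ (64 * g ^ 2) := by
              refine Nat.mul_le_mul_right _ (Nat.mul_le_mul_right _ (Nat.mul_le_mul_left _ ?_))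
              rw [← pow_add]
              exact Nat.lt_two_pow_self.le
          _ = 2 ^ (24 + g ^ 4 + 674 * g ^ 4 + 64 * g ^ 2) := by rw [← pow_add, ← pow_add, ← pow_add]
          _ ≤ _ := Nat.pow_le_pow_right (by norm_num) (by omega)

end Pool.Agent.H700.GN
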