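import Mathlib

/-!
# Sparse patterns of small factorization norm contain large empty rectangles

A potential function argument: the weights `exp (-4 γ |u|²)` and successive projections.
-/

set_option autoImplicit false

namespace Pool.Agent.H700.GN

open Finset
open scoped RealInnerProductSpace

variable {X Y Z ι : Type*} [Fintype ι]

theorem frob_eq (A : Finset X) (B : Finset Y) (a : X → ℝ) (b : Y → ℝ)
    (u : X → EuclideanSpace ℝ ι) (v : Y → EuclideanSpace ℝ ι) :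
    ∑ x ∈ A, ∑ y ∈ B, a x * b y * ⟪u x, v y⟫ ^ 2 =
      ∑ p : ι × ι, (∑ x ∈ A, a x * (u x p.1 * u x p.2)) * (∑ y ∈ B, b y * (v y p.1 * v y p.2)) := by
  have h1 : ∀ x y, ⟪u x, v y⟫ ^ 2 = ∑ p : ι × ι, (u x p.1 * u x p.2) * (v y p.1 * v y p.2) := by
    intro x y
    rw [PiLp.inner_apply, sq, Finset.sum_mul_sum, Fintype.sum_prod_type]
    refine Finset.sum_congr rfl fun i _ => Finset.sum_congr rfl fun j _ => ?_
    simp only [RCLike.inner_apply, conj_trivial]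
    ring
  calc ∑ x ∈ A, ∑ y ∈ B, a x * b y * ⟪u x, v y⟫ ^ 2
      = ∑ x ∈ A, ∑ y ∈ B, ∑ p : ι × ι, (a x * (u x p.1 * u x p.2)) * (b y * (v y p.1 * v y p.2)) := by
        refine Finset.sum_congr rfl fun x _ => Finset.sum_congr rfl fun y _ => ?_
        rw [h1, Finset.mul_sum]
        exact Finset.sum_congr rfl fun p _ => by ring
    _ = ∑ x ∈ A, ∑ p : ι × ι, ∑ y ∈ B, (a x * (u x p.1 * u x p.2)) * (b y * (v y p.1 * v y p.2)) :=
        Finset.sum_congr rfl fun x _ => Finset.sum_comm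
    _ = ∑ p : ι × ι, ∑ x ∈ A, ∑ y ∈ B, (a x * (u x p.1 * u x p.2)) * (b y * (v y p.1 * v y p.2)) :=
        Finset.sum_comm
    _ = _ := by
        refine Finset.sum_congr rfl fun p _ => ?_
        rw [Finset.sum_mul_sum]

/-- The inequality of Cauchy and Schwarz for the weighted Gram matrices. -/
theorem frob (A : Finset X) (B : Finset Y) (a : X → ℝ) (b : Y → ℝ)
    (u : X → EuclideanSpace ℝ ι) (v : Y → EuclideanSpace ℝ ι) :
    (∑ x ∈ A, ∑ y ∈ B, a x * b y * ⟪u x, v y⟫ ^ 2) ^ 2 ≤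
      (∑ x ∈ A, ∑ x' ∈ A, a x * a x' * ⟪u x, u x'⟫ ^ 2) *
      (∑ y ∈ B, ∑ y' ∈ B, b y * b y' * ⟪v y, v y'⟫ ^ 2) := by
  rw [frob_eq A B a b u v, frob_eq A A a a u u, frob_eq B B b b v v]
  have := Finset.sum_mul_sq_le_sq_mul_sq (univ : Finset (ι × ι))
    (fun p => ∑ x ∈ A, a x * (u x p.1 * u x p.2)) (fun p => ∑ y ∈ B, b y * (v y p.1 * v y p.2))
  simpa only [sq] using this

/-- the weight of a family of vectors -/
noncomputable def wt (γ : ℝ) (u : EuclideanSpace ℝ ι) : ℝ := Real.exp (-(4 * γ) * ‖u‖ ^ 2)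

theorem wt_pos (γ : ℝ) (u : EuclideanSpace ℝ ι) : 0 < wt γ u := Real.exp_pos _

theorem wt_le_one {γ : ℝ} (hγ : 0 ≤ γ) (u : EuclideanSpace ℝ ι) : wt γ u ≤ 1 := by
  unfold wt
  rw [Real.exp_le_one_iff]
  have := sq_nonneg ‖u‖
  nlinarith

/-- the inner products are the indicator of the pattern -/
def Fac (F : X → Y → Prop) (γ : ℝ) (A : Finset X) (B : Finset Y)
    (u : X → EuclideanSpace ℝ ι) (v : Y → EuclideanSpace ℝ ι) : Prop :=
  (∀ x ∈ A, ‖u x‖ ^ 2 ≤ γ) ∧ (∀ y ∈ B, ‖v y‖ ^ 2 ≤ γ) ∧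
    (∀ x ∈ A, ∀ y ∈ B, F x y → ⟪u x, v y⟫ = 1) ∧ (∀ x ∈ A, ∀ y ∈ B, ¬ F x y → ⟪u x, v y⟫ = 0)

theorem Fac.swap {F : X → Y → Prop} {γ : ℝ} {A : Finset X} {B : Finset Y}
    {u : X → EuclideanSpace ℝ ι} {v : Y → EuclideanSpace ℝ ι} (h : Fac F γ A B u v) :
    Fac (fun y x => F x y) γ B A v u :=
  ⟨h.2.1, h.1, fun y hy x hx hF => by rw [real_inner_comm]; exact h.2.2.1 x hx y hy hF,
    fun y hy x hx hF => by rw [real_inner_comm]; exact h.2.2.2 x hx y hy hF⟩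

theorem Fac.mono {F : X → Y → Prop} {γ : ℝ} {A A' : Finset X} {B B' : Finset Y}
    {u : X → EuclideanSpace ℝ ι} {v : Y → EuclideanSpace ℝ ι} (h : Fac F γ A B u v)
    (hA : A' ⊆ A) (hB : B' ⊆ B) : Fac F γ A' B' u v :=
  ⟨fun x hx => h.1 x (hA hx), fun y hy => h.2.1 y (hB hy),
    fun x hx y hy => h.2.2.1 x (hA hx) y (hB hy), fun x hx y hy => h.2.2.2 x (hA hx) y (hB hy)⟩

open Classical in
/-- **The column step.** -/
theorem colstep (F : X → Y → Prop) (γ : ℝ) (A : Finset X) (B : Finset Y)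
    (u : X → EuclideanSpace ℝ ι) (v : Y → EuclideanSpace ℝ ι) (h : Fac F γ A B u v)
    (y₀ : Y) (hy₀ : y₀ ∈ B) (hv₀ : v y₀ ≠ 0)
    (hτ : 2 * (∑ x ∈ A with F x y₀, wt γ (u x)) * ‖v y₀‖ ^ 2 * (∑ y ∈ B, wt γ (v y)) ≤
      4 * γ * (∑ y ∈ B, wt γ (v y) * ⟪v y, v y₀⟫ ^ 2) * (∑ x ∈ A, wt γ (u x)))
    (hμ : 2 * (∑ x ∈ A with F x y₀, wt γ (u x)) ≤ ∑ x ∈ A, wt γ (u x)) :
    ∃ v' : Y → EuclideanSpace ℝ ι, Fac F γ (A.filter fun x => ¬ F x y₀) B u v' ∧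
      v' y₀ = 0 ∧ (∀ y, v y = 0 → v' y = 0) ∧
      (∑ x ∈ A, wt γ (u x)) * (∑ y ∈ B, wt γ (v y)) ≤
        (∑ x ∈ A with ¬ F x y₀, wt γ (u x)) * (∑ y ∈ B, wt γ (v' y)) := by
  have hn0 : 0 < ‖v y₀‖ ^ 2 := by positivity
  set w := v y₀ with hw
  set v' : Y → EuclideanSpace ℝ ι := fun y => v y - (⟪v y, w⟫ / ‖w‖ ^ 2) • w with hv'
  have hnorm : ∀ y, ‖v' y‖ ^ 2 = ‖v y‖ ^ 2 - ⟪v y, w⟫ ^ 2 / ‖w‖ ^ 2 := by
    intro y
    simp only [hv']
    rw [norm_sub_sq_real, inner_smul_right, norm_smul, mul_pow, Real.norm_eq_abs, sq_abs]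
    field_simp
    ring
  have hnorm' : ∀ y, ‖v' y‖ ^ 2 ≤ ‖v y‖ ^ 2 := by
    intro y
    rw [hnorm]
    have : 0 ≤ ⟪v y, w⟫ ^ 2 / ‖w‖ ^ 2 := by positivity
    linarith
  have horth : ∀ x ∈ A, ¬ F x y₀ → ∀ y, ⟪u x, v' y⟫ = ⟪u x, v y⟫ := by
    intro x hx hF y
    simp only [hv']
    rw [inner_sub_right, inner_smul_right, hw, h.2.2.2 x hx y₀ hy₀ hF]
    ring
  refine ⟨v', ⟨fun x hx => h.1 x (mem_filter.mp hx).1, fun y hy => (hnorm' y).trans (h.2.1 y hy),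
    fun x hx y hy hF => ?_, fun x hx y hy hF => ?_⟩, ?_, ?_, ?_⟩
  · rw [mem_filter] at hx
    rw [horth x hx.1 hx.2, h.2.2.1 x hx.1 y hy hF]
  · rw [mem_filter] at hx
    rw [horth x hx.1 hx.2, h.2.2.2 x hx.1 y hy hF]
  · simp only [hv']
    rw [← hw, real_inner_self_eq_norm_sq, div_self hn0.ne', one_smul, sub_self]
  · intro y hy
    simp only [hv']
    rw [hy, inner_zero_left]
    simp
  · set N := ∑ x ∈ A with F x y₀, wt γ (u x) with hN
    set Zu := ∑ x ∈ A, wt γ (u x) with hZu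
    set Zv := ∑ y ∈ B, wt γ (v y) with hZv
    set Q := ∑ y ∈ B, wt γ (v y) * ⟪v y, w⟫ ^ 2 with hQ
    have hsplit : N + ∑ x ∈ A with ¬ F x y₀, wt γ (u x) = Zu :=
      sum_filter_add_sum_filter_not A _ _
    have hN0 : 0 ≤ N := sum_nonneg fun x _ => (wt_pos γ _).le
    have hZv0 : 0 < Zv := sum_pos (fun y _ => wt_pos γ _) ⟨y₀, hy₀⟩
    have hgrow : Zv + 4 * γ / ‖w‖ ^ 2 * Q ≤ ∑ y ∈ B, wt γ (v' y) := by
      rw [hQ, mul_sum, hZv, ← sum_add_distrib]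
      refine sum_le_sum fun y _ => ?_
      have e1 : wt γ (v' y) = wt γ (v y) * Real.exp (4 * γ * (⟪v y, w⟫ ^ 2 / ‖w‖ ^ 2)) := by
        unfold wt
        rw [← Real.exp_add, hnorm]
        congr 1
        ring
      have e2 := Real.add_one_le_exp (4 * γ * (⟪v y, w⟫ ^ 2 / ‖w‖ ^ 2))
      rw [e1]
      calc wt γ (v y) + 4 * γ / ‖w‖ ^ 2 * (wt γ (v y) * ⟪v y, w⟫ ^ 2)
          = wt γ (v y) * (4 * γ * (⟪v y, w⟫ ^ 2 / ‖w‖ ^ 2) + 1) := by ring
        _ ≤ _ := mul_le_mul_of_nonneg_left e2 (wt_pos γ _).le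
    have hZu' : ∑ x ∈ A with ¬ F x y₀, wt γ (u x) = Zu - N := by linarith
    rw [hZu']
    have hZuN : 0 ≤ Zu - N := by linarith
    refine le_trans ?_ (mul_le_mul_of_nonneg_left hgrow hZuN)
    -- `2 N Zv / Zu ≤ 4 γ Q / |w|²`
    have hZu0 : 0 ≤ Zu := by linarith
    have h1 : 2 * N * Zv ≤ 4 * γ / ‖w‖ ^ 2 * Q * Zu := by
      have : 4 * γ / ‖w‖ ^ 2 * Q * Zu = 4 * γ * Q * Zu / ‖w‖ ^ 2 := by ring
      rw [this, le_div_iff₀ hn0]
      calc 2 * N * Zv * ‖w‖ ^ 2 = 2 * N * ‖w‖ ^ 2 * Zv := by ring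
        _ ≤ _ := hτ
    set R := 4 * γ / ‖w‖ ^ 2 * Q with hR
    rcases hZu0.eq_or_lt with h0 | h0
    · have : N = 0 := by linarith
      rw [← h0, this]
      simp
    · -- multiply by `Zu`
      refine le_of_mul_le_mul_left ?_ h0
      have h2 : 2 * N * Zv * (Zu - N) ≤ R * Zu * (Zu - N) := mul_le_mul_of_nonneg_right h1 hZuN
      have h3 : 0 ≤ N * Zv * (Zu - 2 * N) :=
        mul_nonneg (mul_nonneg hN0 hZv0.le) (by linarith)
      nlinarith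

open Classical in
/-- **There is always a good step.** -/
theorem select (F : X → Y → Prop) (γ : ℝ) (hγ : 0 < γ) (A : Finset X) (B : Finset Y)
    (u : X → EuclideanSpace ℝ ι) (v : Y → EuclideanSpace ℝ ι) (h : Fac F γ A B u v)
    (hne : ∃ x ∈ A, ∃ y ∈ B, F x y) :
    (∃ y₀ ∈ B, v y₀ ≠ 0 ∧
      2 * (∑ x ∈ A with F x y₀, wt γ (u x)) * ‖v y₀‖ ^ 2 * (∑ y ∈ B, wt γ (v y)) ≤
      4 * γ * (∑ y ∈ B, wt γ (v y) * ⟪v y, v y₀⟫ ^ 2) * (∑ x ∈ A, wt γ (u x))) ∨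
    (∃ x₀ ∈ A, u x₀ ≠ 0 ∧
      2 * (∑ y ∈ B with F x₀ y, wt γ (v y)) * ‖u x₀‖ ^ 2 * (∑ x ∈ A, wt γ (u x)) ≤
      4 * γ * (∑ x ∈ A, wt γ (u x) * ⟪u x, u x₀⟫ ^ 2) * (∑ y ∈ B, wt γ (v y))) := by
  by_contra hcon
  push Not at hcon
  obtain ⟨hc1, hc2⟩ := hcon
  obtain ⟨a, ha, b, hb, hab⟩ := hne
  set Zu := ∑ x ∈ A, wt γ (u x) with hZu
  set Zv := ∑ y ∈ B, wt γ (v y) with hZv
  have hZu0 : 0 < Zu := sum_pos (fun y _ => wt_pos γ _) ⟨a, ha⟩
  have hZv0 : 0 < Zv := sum_pos (fun y _ => wt_pos γ _) ⟨b, hb⟩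
  -- the number of ones
  set p := ∑ x ∈ A, ∑ y ∈ B, wt γ (u x) * wt γ (v y) * ⟪u x, v y⟫ ^ 2 with hp
  have hp0 : 0 < p := by
    refine sum_pos' (fun x _ => sum_nonneg fun y _ => ?_) ⟨a, ha, sum_pos' (fun y _ => ?_)
      ⟨b, hb, ?_⟩⟩
    · have := wt_pos γ (u x); have := wt_pos γ (v y); positivity
    · have := wt_pos γ (u a); have := wt_pos γ (v y); positivity
    · rw [h.2.2.1 a ha b hb hab]
      have := wt_pos γ (u a); have := wt_pos γ (v b); positivity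
  set Su := ∑ x ∈ A, ∑ x' ∈ A, wt γ (u x) * wt γ (u x') * ⟪u x, u x'⟫ ^ 2 with hSu
  set Sv := ∑ y ∈ B, ∑ y' ∈ B, wt γ (v y) * wt γ (v y') * ⟪v y, v y'⟫ ^ 2 with hSv
  have hfrob : p ^ 2 ≤ Su * Sv := frob A B (fun x => wt γ (u x)) (fun y => wt γ (v y)) u v
  have hpcol : p = ∑ y ∈ B, wt γ (v y) * ∑ x ∈ A with F x y, wt γ (u x) := by
    rw [hp, sum_comm]
    refine sum_congr rfl fun y hy => ?_
    rw [sum_filter, mul_sum]
    refine sum_congr rfl fun x hx => ?_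
    by_cases hF : F x y
    · rw [if_pos hF, h.2.2.1 x hx y hy hF]; ring
    · rw [if_neg hF, h.2.2.2 x hx y hy hF]; ring
  have hprow : p = ∑ x ∈ A, wt γ (u x) * ∑ y ∈ B with F x y, wt γ (v y) := by
    rw [hp]
    refine sum_congr rfl fun x hx => ?_
    rw [sum_filter, mul_sum]
    refine sum_congr rfl fun y hy => ?_
    by_cases hF : F x y
    · rw [if_pos hF, h.2.2.1 x hx y hy hF]; ring
    · rw [if_neg hF, h.2.2.2 x hx y hy hF]; ring
  have hSvcol : Sv = ∑ y₀ ∈ B, wt γ (v y₀) * ∑ y ∈ B, wt γ (v y) * ⟪v y, v y₀⟫ ^ 2 := by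
    rw [hSv, sum_comm]
    refine sum_congr rfl fun y₀ _ => ?_
    rw [mul_sum]
    exact sum_congr rfl fun y _ => by ring
  have hSurow : Su = ∑ x₀ ∈ A, wt γ (u x₀) * ∑ x ∈ A, wt γ (u x) * ⟪u x, u x₀⟫ ^ 2 := by
    rw [hSu, sum_comm]
    refine sum_congr rfl fun y₀ _ => ?_
    rw [mul_sum]
    exact sum_congr rfl fun y _ => by ring
  have k1 : 2 * Sv * Zu ≤ p * Zv := by
    have d1 : ∀ (f : Y → ℝ) (z : ℝ), 2 * (∑ y₀ ∈ B, f y₀) * z = ∑ y₀ ∈ B, 2 * f y₀ * z :=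
      fun f z => by rw [mul_sum, sum_mul]
    have d2 : ∀ (f : Y → ℝ) (z : ℝ), (∑ y₀ ∈ B, f y₀) * z = ∑ y₀ ∈ B, f y₀ * z :=
      fun f z => by rw [sum_mul]
    rw [hSvcol, hpcol, d1, d2]
    refine sum_le_sum fun y₀ hy₀ => ?_
    have hW := wt_pos γ (v y₀)
    have main : 2 * (∑ y ∈ B, wt γ (v y) * ⟪v y, v y₀⟫ ^ 2) * Zu ≤
        (∑ x ∈ A with F x y₀, wt γ (u x)) * Zv := by
      by_cases hv0 : v y₀ = 0
      · have e1 : ∑ y ∈ B, wt γ (v y) * ⟪v y, v y₀⟫ ^ 2 = 0 :=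
          sum_eq_zero fun y _ => by rw [hv0, inner_zero_right]; ring
        rw [e1, mul_zero, zero_mul]
        exact mul_nonneg (sum_nonneg fun x _ => (wt_pos γ _).le) hZv0.le
      · have e1 := (hc1 y₀ hy₀ hv0).le
        have e2 : 2 * (∑ x ∈ A with F x y₀, wt γ (u x)) * ‖v y₀‖ ^ 2 * Zv ≤
            2 * (∑ x ∈ A with F x y₀, wt γ (u x)) * γ * Zv := by
          refine mul_le_mul_of_nonneg_right (mul_le_mul_of_nonneg_left (h.2.1 y₀ hy₀) ?_) hZv0.le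
          exact mul_nonneg (by norm_num) (sum_nonneg fun x _ => (wt_pos γ _).le)
        have e3 := e1.trans e2
        have e4 : (2 * γ) * (2 * (∑ y ∈ B, wt γ (v y) * ⟪v y, v y₀⟫ ^ 2) * Zu) ≤
            (2 * γ) * ((∑ x ∈ A with F x y₀, wt γ (u x)) * Zv) := by linarith
        exact le_of_mul_le_mul_left e4 (by positivity)
    calc 2 * (wt γ (v y₀) * ∑ y ∈ B, wt γ (v y) * ⟪v y, v y₀⟫ ^ 2) * Zu
        = wt γ (v y₀) * (2 * (∑ y ∈ B, wt γ (v y) * ⟪v y, v y₀⟫ ^ 2) * Zu) := by ring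
      _ ≤ wt γ (v y₀) * ((∑ x ∈ A with F x y₀, wt γ (u x)) * Zv) :=
          mul_le_mul_of_nonneg_left main hW.le
      _ = _ := by ring
  have k2 : 2 * Su * Zv ≤ p * Zu := by
    have d1 : ∀ (f : X → ℝ) (z : ℝ), 2 * (∑ y₀ ∈ A, f y₀) * z = ∑ y₀ ∈ A, 2 * f y₀ * z :=
      fun f z => by rw [mul_sum, sum_mul]
    have d2 : ∀ (f : X → ℝ) (z : ℝ), (∑ y₀ ∈ A, f y₀) * z = ∑ y₀ ∈ A, f y₀ * z :=
      fun f z => by rw [sum_mul]
    rw [hSurow, hprow, d1, d2]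
    refine sum_le_sum fun x₀ hx₀ => ?_
    have hW := wt_pos γ (u x₀)
    have main : 2 * (∑ x ∈ A, wt γ (u x) * ⟪u x, u x₀⟫ ^ 2) * Zv ≤
        (∑ y ∈ B with F x₀ y, wt γ (v y)) * Zu := by
      by_cases hv0 : u x₀ = 0
      · have e1 : ∑ x ∈ A, wt γ (u x) * ⟪u x, u x₀⟫ ^ 2 = 0 :=
          sum_eq_zero fun y _ => by rw [hv0, inner_zero_right]; ring
        rw [e1, mul_zero, zero_mul]
        exact mul_nonneg (sum_nonneg fun x _ => (wt_pos γ _).le) hZu0.le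
      · have e1 := (hc2 x₀ hx₀ hv0).le
        have e2 : 2 * (∑ y ∈ B with F x₀ y, wt γ (v y)) * ‖u x₀‖ ^ 2 * Zu ≤
            2 * (∑ y ∈ B with F x₀ y, wt γ (v y)) * γ * Zu := by
          refine mul_le_mul_of_nonneg_right (mul_le_mul_of_nonneg_left (h.1 x₀ hx₀) ?_) hZu0.le
          exact mul_nonneg (by norm_num) (sum_nonneg fun x _ => (wt_pos γ _).le)
        have e3 := e1.trans e2
        have e4 : (2 * γ) * (2 * (∑ x ∈ A, wt γ (u x) * ⟪u x, u x₀⟫ ^ 2) * Zv) ≤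
            (2 * γ) * ((∑ y ∈ B with F x₀ y, wt γ (v y)) * Zu) := by linarith
        exact le_of_mul_le_mul_left e4 (by positivity)
    calc 2 * (wt γ (u x₀) * ∑ x ∈ A, wt γ (u x) * ⟪u x, u x₀⟫ ^ 2) * Zv
        = wt γ (u x₀) * (2 * (∑ x ∈ A, wt γ (u x) * ⟪u x, u x₀⟫ ^ 2) * Zv) := by ring
      _ ≤ wt γ (u x₀) * ((∑ y ∈ B with F x₀ y, wt γ (v y)) * Zu) :=
          mul_le_mul_of_nonneg_left main hW.le
      _ = _ := by ring
  have hSu0 : 0 ≤ Su := sum_nonneg fun x _ => sum_nonneg fun x' _ => by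
    have := wt_pos γ (u x); have := wt_pos γ (u x'); positivity
  have hSv0 : 0 ≤ Sv := sum_nonneg fun x _ => sum_nonneg fun x' _ => by
    have := wt_pos γ (v x); have := wt_pos γ (v x'); positivity
  have k3 : (2 * Sv * Zu) * (2 * Su * Zv) ≤ (p * Zv) * (p * Zu) :=
    mul_le_mul k1 k2 (by positivity) (by positivity)
  have k4 : (Zu * Zv) * (4 * (Su * Sv)) ≤ (Zu * Zv) * p ^ 2 := by nlinarith
  have k5 : 4 * (Su * Sv) ≤ p ^ 2 := le_of_mul_le_mul_left k4 (by positivity)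
  have k6 : 0 < p ^ 2 := by positivity
  linarith

open Classical in
/-- **The induction.** -/
theorem empty_aux (F : X → Y → Prop) (γ θ a b : ℝ) (hγ : 0 < γ) (ha : 0 < a)
    (hb : 0 < b) (n : ℕ) :
    ∀ (A : Finset X) (B : Finset Y) (u : X → EuclideanSpace ℝ ι) (v : Y → EuclideanSpace ℝ ι),
      Fac F γ A B u v →
      #{x ∈ A | u x ≠ 0} + #{y ∈ B | v y ≠ 0} ≤ n →
      (#A : ℝ) ≤ a → (#B : ℝ) ≤ b →
      (∀ x ∈ A, 2 * (#{y ∈ B | F x y} : ℝ) ≤ θ * b) →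
      (∀ y ∈ B, 2 * (#{x ∈ A | F x y} : ℝ) ≤ θ * a) →
      θ * (a * b) ≤ (∑ x ∈ A, wt γ (u x)) * (∑ y ∈ B, wt γ (v y)) →
      ∃ A' ⊆ A, ∃ B' ⊆ B, (∀ x ∈ A', ∀ y ∈ B', ¬ F x y) ∧ θ * (a * b) ≤ #A' * #B' := by
  induction n with
  | zero =>
    intro A B u v h hn hA hB hrow hcol hZ
    refine ⟨A, subset_rfl, B, subset_rfl, fun x hx y hy hF => ?_, ?_⟩
    · have h1 : #{x ∈ A | u x ≠ 0} = 0 := by omega
      rw [card_eq_zero, filter_eq_empty_iff] at h1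
      have h2 := h1 hx
      push Not at h2
      have h3 := h.2.2.1 x hx y hy hF
      rw [h2, inner_zero_left] at h3
      norm_num at h3
    · refine hZ.trans (mul_le_mul ?_ ?_ (sum_nonneg fun _ _ => (wt_pos γ _).le) (Nat.cast_nonneg _))
      · refine (sum_le_sum fun x _ => wt_le_one hγ.le _).trans (le_of_eq (by simp))
      · refine (sum_le_sum fun x _ => wt_le_one hγ.le _).trans (le_of_eq (by simp))
  | succ n ih =>
    intro A B u v h hn hA hB hrow hcol hZ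
    by_cases hne : ∃ x ∈ A, ∃ y ∈ B, F x y
    swap
    · push Not at hne
      refine ⟨A, subset_rfl, B, subset_rfl, fun x hx y hy => hne x hx y hy, ?_⟩
      refine hZ.trans (mul_le_mul ?_ ?_ (sum_nonneg fun _ _ => (wt_pos γ _).le) (Nat.cast_nonneg _))
      · refine (sum_le_sum fun x _ => wt_le_one hγ.le _).trans (le_of_eq (by simp))
      · refine (sum_le_sum fun x _ => wt_le_one hγ.le _).trans (le_of_eq (by simp))
    have hZuA : ∑ x ∈ A, wt γ (u x) ≤ #A :=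
      (sum_le_sum fun x _ => wt_le_one hγ.le _).trans (le_of_eq (by simp))
    have hZvB : ∑ y ∈ B, wt γ (v y) ≤ #B :=
      (sum_le_sum fun x _ => wt_le_one hγ.le _).trans (le_of_eq (by simp))
    have hZu0 : 0 ≤ ∑ x ∈ A, wt γ (u x) := sum_nonneg fun _ _ => (wt_pos γ _).le
    have hZv0 : 0 ≤ ∑ y ∈ B, wt γ (v y) := sum_nonneg fun _ _ => (wt_pos γ _).le
    have hZu1 : θ * a ≤ ∑ x ∈ A, wt γ (u x) := by
      have h1 : (∑ x ∈ A, wt γ (u x)) * (∑ y ∈ B, wt γ (v y)) ≤ (∑ x ∈ A, wt γ (u x)) * b :=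
        mul_le_mul_of_nonneg_left (hZvB.trans hB) hZu0
      have h2 : (θ * a) * b ≤ (∑ x ∈ A, wt γ (u x)) * b := by
        calc (θ * a) * b = θ * (a * b) := by ring
          _ ≤ _ := hZ.trans h1
      exact le_of_mul_le_mul_right h2 hb
    have hZv1 : θ * b ≤ ∑ y ∈ B, wt γ (v y) := by
      have h1 : (∑ x ∈ A, wt γ (u x)) * (∑ y ∈ B, wt γ (v y)) ≤ a * (∑ y ∈ B, wt γ (v y)) :=
        mul_le_mul_of_nonneg_right (hZuA.trans hA) hZv0
      have h2 : a * (θ * b) ≤ a * (∑ y ∈ B, wt γ (v y)) := by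
        calc a * (θ * b) = θ * (a * b) := by ring
          _ ≤ _ := hZ.trans h1
      exact le_of_mul_le_mul_left h2 ha
    rcases select F γ hγ A B u v h hne with ⟨y₀, hy₀, hv₀, hτ⟩ | ⟨x₀, hx₀, hu₀, hτ⟩
    · have hμ : 2 * (∑ x ∈ A with F x y₀, wt γ (u x)) ≤ ∑ x ∈ A, wt γ (u x) := by
        have h1 : ∑ x ∈ A with F x y₀, wt γ (u x) ≤ (#{x ∈ A | F x y₀} : ℝ) :=
          (sum_le_sum fun x _ => wt_le_one hγ.le _).trans (le_of_eq (by simp))
        have h2 := hcol y₀ hy₀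
        linarith
      obtain ⟨v', hF', hz, hz', hZ'⟩ := colstep F γ A B u v h y₀ hy₀ hv₀ hτ hμ
      obtain ⟨A', hA', B', hB', hemp, hc⟩ := ih (A.filter fun x => ¬ F x y₀) B u v' hF' (by
        have h1 : #{x ∈ A.filter (fun x => ¬ F x y₀) | u x ≠ 0} ≤ #{x ∈ A | u x ≠ 0} :=
          card_le_card (filter_subset_filter _ (filter_subset _ _))
        have h2 : #{y ∈ B | v' y ≠ 0} < #{y ∈ B | v y ≠ 0} := by
          refine card_lt_card ⟨fun y hy => ?_, fun hsub => ?_⟩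
          · rw [mem_filter] at hy ⊢
            exact ⟨hy.1, fun h0 => hy.2 (hz' y h0)⟩
          · have := hsub (mem_filter.mpr ⟨hy₀, hv₀⟩)
            rw [mem_filter] at this
            exact this.2 hz
        omega) ((Nat.cast_le.mpr (card_le_card (filter_subset _ _))).trans hA) hB
        (fun x hx => hrow x (mem_filter.mp hx).1)
        (fun y hy => by
          refine le_trans ?_ (hcol y hy)
          have : (#{x ∈ A.filter (fun x => ¬ F x y₀) | F x y} : ℝ) ≤ #{x ∈ A | F x y} :=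
            Nat.cast_le.mpr (card_le_card (filter_subset_filter _ (filter_subset _ _)))
          linarith) (hZ.trans hZ')
      exact ⟨A', hA'.trans (filter_subset _ _), B', hB', hemp, hc⟩
    · have hμ : 2 * (∑ y ∈ B with F x₀ y, wt γ (v y)) ≤ ∑ y ∈ B, wt γ (v y) := by
        have h1 : ∑ y ∈ B with F x₀ y, wt γ (v y) ≤ (#{y ∈ B | F x₀ y} : ℝ) :=
          (sum_le_sum fun x _ => wt_le_one hγ.le _).trans (le_of_eq (by simp))
        have h2 := hrow x₀ hx₀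
        linarith
      obtain ⟨u', hF', hz, hz', hZ'⟩ := colstep (fun y x => F x y) γ B A v u h.swap x₀ hx₀ hu₀ hτ hμ
      obtain ⟨A', hA', B', hB', hemp, hc⟩ := ih A (B.filter fun y => ¬ F x₀ y) u' v hF'.swap (by
        have h1 : #{y ∈ B.filter (fun y => ¬ F x₀ y) | v y ≠ 0} ≤ #{y ∈ B | v y ≠ 0} :=
          card_le_card (filter_subset_filter _ (filter_subset _ _))
        have h2 : #{x ∈ A | u' x ≠ 0} < #{x ∈ A | u x ≠ 0} := by
          refine card_lt_card ⟨fun y hy => ?_, fun hsub => ?_⟩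
          · rw [mem_filter] at hy ⊢
            exact ⟨hy.1, fun h0 => hy.2 (hz' y h0)⟩
          · have := hsub (mem_filter.mpr ⟨hx₀, hu₀⟩)
            rw [mem_filter] at this
            exact this.2 hz
        omega) hA ((Nat.cast_le.mpr (card_le_card (filter_subset _ _))).trans hB)
        (fun x hx => by
          refine le_trans ?_ (hrow x hx)
          have : (#{y ∈ B.filter (fun y => ¬ F x₀ y) | F x y} : ℝ) ≤ #{y ∈ B | F x y} :=
            Nat.cast_le.mpr (card_le_card (filter_subset_filter _ (filter_subset _ _)))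
          linarith)
        (fun y hy => hcol y (mem_filter.mp hy).1) (hZ.trans (by
          calc (∑ x ∈ A, wt γ (u x)) * (∑ y ∈ B, wt γ (v y)) =
              (∑ y ∈ B, wt γ (v y)) * (∑ x ∈ A, wt γ (u x)) := mul_comm _ _
            _ ≤ _ := hZ'
            _ = _ := mul_comm _ _))
      exact ⟨A', hA', B', hB'.trans (filter_subset _ _), hemp, hc⟩

open Classical in
/-- **Sparse patterns of small factorization norm contain large empty rectangles.** -/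
theorem exists_empty (F : X → Y → Prop) (γ : ℝ) (hγ : 0 < γ) (A : Finset X) (B : Finset Y)
    (u : X → EuclideanSpace ℝ ι) (v : Y → EuclideanSpace ℝ ι) (h : Fac F γ A B u v)
    (hrow : ∀ x ∈ A, 2 * (#{y ∈ B | F x y} : ℝ) ≤ Real.exp (-(8 * γ ^ 2)) * #B)
    (hcol : ∀ y ∈ B, 2 * (#{x ∈ A | F x y} : ℝ) ≤ Real.exp (-(8 * γ ^ 2)) * #A) :
    ∃ A' ⊆ A, ∃ B' ⊆ B, (∀ x ∈ A', ∀ y ∈ B', ¬ F x y) ∧
      Real.exp (-(8 * γ ^ 2)) * (#A * #B) ≤ #A' * #B' := by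
  rcases A.eq_empty_or_nonempty with hA | hA
  · exact ⟨∅, empty_subset _, ∅, empty_subset _, by simp, by rw [hA]; simp⟩
  rcases B.eq_empty_or_nonempty with hB | hB
  · exact ⟨∅, empty_subset _, ∅, empty_subset _, by simp, by rw [hB]; simp⟩
  have h1 : Real.exp (-(4 * γ ^ 2)) * #A ≤ ∑ x ∈ A, wt γ (u x) := by
    calc Real.exp (-(4 * γ ^ 2)) * #A = ∑ _x ∈ A, Real.exp (-(4 * γ ^ 2)) := by
          rw [sum_const, nsmul_eq_mul, mul_comm]
      _ ≤ _ := sum_le_sum fun x hx => by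
        unfold wt
        rw [Real.exp_le_exp]
        have := h.1 x hx
        nlinarith
  have h2 : Real.exp (-(4 * γ ^ 2)) * #B ≤ ∑ y ∈ B, wt γ (v y) := by
    calc Real.exp (-(4 * γ ^ 2)) * #B = ∑ _x ∈ B, Real.exp (-(4 * γ ^ 2)) := by
          rw [sum_const, nsmul_eq_mul, mul_comm]
      _ ≤ _ := sum_le_sum fun x hx => by
        unfold wt
        rw [Real.exp_le_exp]
        have := h.2.1 x hx
        nlinarith
  refine empty_aux F γ (Real.exp (-(8 * γ ^ 2))) #A #B hγ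
    (by exact_mod_cast hA.card_pos) (by exact_mod_cast hB.card_pos) _ A B u v h le_rfl le_rfl le_rfl
    hrow hcol ?_
  calc Real.exp (-(8 * γ ^ 2)) * (#A * #B) =
      (Real.exp (-(4 * γ ^ 2)) * #A) * (Real.exp (-(4 * γ ^ 2)) * #B) := by
        have : Real.exp (-(8 * γ ^ 2)) = Real.exp (-(4 * γ ^ 2)) * Real.exp (-(4 * γ ^ 2)) := by
          rw [← Real.exp_add]; congr 1; ring
        rw [this]; ring
    _ ≤ _ := mul_le_mul h1 h2 (by positivity) (sum_nonneg fun _ _ => (wt_pos γ _).le)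

end Pool.Agent.H700.GN
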