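import Pool.Agent.H700.GN.Sparse

/-!
# Relations of small factorization norm with labelled pairs
-/

set_option autoImplicit false

namespace Pool.Agent.H700.GN

open Finset
open scoped RealInnerProductSpace

/-- The factorization norm `γ₂` of (the `0/1` matrix of) the relation `F` is at most `g`: there are
vectors `u x`, `v y` of squared length at most `g` in some `ℝ ^ d` with `⟨u x, v y⟩ = 1` if
`F x y`, and `⟨u x, v y⟩ = 0` otherwise. -/
def FacNormLE {X Y : Type*} (F : X → Y → Prop) (g : ℝ) : Prop :=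
  ∃ (d : ℕ) (u : X → EuclideanSpace ℝ (Fin d)) (v : Y → EuclideanSpace ℝ (Fin d)),
    (∀ x, ‖u x‖ ^ 2 ≤ g) ∧ (∀ y, ‖v y‖ ^ 2 ≤ g) ∧
      (∀ x y, F x y → ⟪u x, v y⟫ = 1) ∧ (∀ x y, ¬ F x y → ⟪u x, v y⟫ = 0)

/-- **A rectangle of ones.** -/
theorem exists_rect {X Y : Type*} [Finite X] [Finite Y] (F : X → Y → Prop) (g : ℕ) (hg : 1 ≤ g)
    (hF : FacNormLE F g) : ∃ (A : Set X) (B : Set Y), (∀ x ∈ A, ∀ y ∈ B, F x y) ∧
      Nat.card {p : X × Y // F p.1 p.2} ^ 2 ≤
        2 ^ (766 * g ^ 4) * (Nat.card X * Nat.card Y) * (Nat.card A * Nat.card B) := by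
  classical
  have := Fintype.ofFinite X
  have := Fintype.ofFinite Y
  obtain ⟨d, u, v, hu, hv, h1, h0⟩ := hF
  set F' : X → Y → Bool := fun x y => decide (F x y) with hF'
  have hfac : Fac' F' g u v := by
    refine ⟨hu, hv, fun x y => ?_⟩
    by_cases h : F x y
    · rw [h1 x y h, if_pos (by simpa [hF'] using h)]
    · rw [h0 x y h, if_neg (by simpa [hF'] using h)]
  obtain ⟨A, _, B, _, hall, hc⟩ := rect F' g hg u v hfac univ univ
  refine ⟨(A : Set X), (B : Set Y), fun x hx y hy => ?_, ?_⟩
  · have := hall x (by simpa using hx) y (by simpa using hy)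
    simpa [hF'] using this
  · have e1 : Nat.card {p : X × Y // F p.1 p.2} = ones F' univ univ := by
      rw [Nat.card_eq_fintype_card, Fintype.card_subtype, card_filter]
      unfold ones
      rw [← univ_product_univ, sum_product]
      refine sum_congr rfl fun x _ => sum_congr rfl fun y _ => ?_
      by_cases h : F x y
      · rw [if_pos h, if_pos (by simpa [hF'] using h)]
      · rw [if_neg h, if_neg (by simpa [hF'] using h)]
    rw [e1]
    simpa using hc

/-- **Labels.** The pairs of a relation of small factorization norm are labelled in such a way that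
no two opposite pairs of a rectangle have the same label. -/
theorem labelled {X Y Z : Type*} [Finite X] [Finite Y] [Finite Z] (F : X → Y → Prop) (g : ℕ)
    (hg : 1 ≤ g) (hF : FacNormLE F g) (lab : X → Y → Z)
    (hlab : ∀ x x' y y', F x y → F x y' → F x' y → F x' y' → lab x y = lab x' y' →
      x = x' ∧ y = y') :
    Nat.card {p : X × Y // F p.1 p.2} ^ 2 ≤
      2 ^ (766 * g ^ 4) * (Nat.card X * Nat.card Y * Nat.card Z) := by
  obtain ⟨A, B, hAB, hc⟩ := exists_rect F g hg hF
  have h1 : Nat.card A * Nat.card B ≤ Nat.card Z := by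
    rw [← Nat.card_prod]
    refine Nat.card_le_card_of_injective (fun p : A × B => lab p.1 p.2) ?_
    rintro ⟨⟨x, hx⟩, ⟨y, hy⟩⟩ ⟨⟨x', hx'⟩, ⟨y', hy'⟩⟩ h
    obtain ⟨rfl, rfl⟩ := hlab x x' y y' (hAB x hx y hy) (hAB x hx y' hy') (hAB x' hx' y hy)
      (hAB x' hx' y' hy') h
    rfl
  refine hc.trans ?_
  calc 2 ^ (766 * g ^ 4) * (Nat.card X * Nat.card Y) * (Nat.card A * Nat.card B) ≤
      2 ^ (766 * g ^ 4) * (Nat.card X * Nat.card Y) * Nat.card Z := Nat.mul_le_mul_left _ h1
    _ = _ := by ring

/-- A partition into blocks has factorization norm at most one. -/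
theorem facNorm_eq {X Y Z : Type*} [Finite Z] (a : X → Z) (b : Y → Z) :
    FacNormLE (fun x y => a x = b y) 1 := by
  classical
  have := Fintype.ofFinite Z
  let e := Fintype.equivFin Z
  refine ⟨Fintype.card Z, fun x => EuclideanSpace.single (e (a x)) 1,
    fun y => EuclideanSpace.single (e (b y)) 1, fun x => by simp, fun y => by simp,
    fun x y h => ?_, fun x y h => ?_⟩
  · rw [EuclideanSpace.inner_single_left]
    simp [h]
  · rw [EuclideanSpace.inner_single_left]
    have : e (a x) ≠ e (b y) := fun h2 => h (e.injective h2)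
    simp [this]

end Pool.Agent.H700.GN
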