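import Pool.Agent.H700.GN.Triple

/-!
# Examples: four edges have many vertices
-/

set_option autoImplicit false

namespace Pool.Agent.H700.GN

open Finset

/-- **Four points.** -/
theorem four_points {α β J : Type*} [Fintype J] [DecidableEq J] [DecidableEq α] [DecidableEq β]
    (φ : J → α → β)
    (P1 : ∀ j j' v w, φ j v = φ j w → φ j' v = φ j' w → j ≠ j' → v = w)
    (P2 : ∀ j1 j2 j3 u v w, u ≠ v → v ≠ w → u ≠ w → φ j1 u = φ j1 v → φ j2 v = φ j2 w →
      φ j3 u = φ j3 w → j1 = j2 ∧ j3 = j2) (S : Finset α) (hS : #S = 4) :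
    4 * Fintype.card J ≤ ∑ j, #(S.image (φ j)) + 4 := by
  obtain ⟨d, T, hdT, rfl, hT⟩ := card_eq_succ.mp hS
  obtain ⟨a, b, c, hab, hac, hbc, rfl⟩ := card_eq_three.mp hT
  simp only [mem_insert, mem_singleton, not_or] at hdT
  obtain ⟨hda, hdb, hdc⟩ := hdT
  set J' : α → α → Finset J := fun u v => univ.filter (fun j => φ j u = φ j v) with hJ'
  have hJ1 : ∀ u v, u ≠ v → #(J' u v) ≤ 1 := by
    intro u v huv
    rw [card_le_one]
    intro j hj j' hj'
    by_contra hne
    exact huv (P1 j j' u v (mem_filter.mp hj).2 (mem_filter.mp hj').2 hne)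
  have htri : ∀ u v w, u ≠ v → v ≠ w → u ≠ w → (J' u v).Nonempty → #(J' w u ∪ J' w v) ≤ 1 := by
    intro u v w huv hvw huw ⟨j1, hj1⟩
    rcases (J' w u).eq_empty_or_nonempty with h1 | ⟨j, hj⟩
    · rw [h1, empty_union]; exact hJ1 w v (Ne.symm hvw)
    rcases (J' w v).eq_empty_or_nonempty with h2 | ⟨j', hj'⟩
    · rw [h2, union_empty]; exact hJ1 w u (Ne.symm huw)
    have k : ∀ x ∈ J' w u, ∀ y ∈ J' w v, x = j1 ∧ y = j1 := fun x hx y hy =>
      P2 x j1 y w u v (Ne.symm huw) huv (Ne.symm hvw) (mem_filter.mp hx).2 (mem_filter.mp hj1).2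
        (mem_filter.mp hy).2
    have k2 : ∀ x ∈ J' w u ∪ J' w v, x = j1 := by
      intro x hx
      rcases mem_union.mp hx with hx | hx
      · exact (k x hx j' hj').1
      · exact (k j hj x hx).2
    rw [card_le_one]
    intro x hx y hy
    rw [k2 x hx, k2 y hy]
  have hsum : ∀ j, 4 ≤ #((insert d {a, b, c} : Finset α).image (φ j)) +
      (if j ∈ J' a b then 1 else 0) + (if j ∈ J' c a ∪ J' c b then 1 else 0) +
      (if j ∈ (J' d a ∪ J' d b) ∪ J' d c then 1 else 0) := by
    intro j
    have e0 : (insert d {a, b, c} : Finset α).image (φ j) =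
        insert (φ j d) (insert (φ j c) (insert (φ j a) {φ j b})) := by
      ext w
      simp only [mem_image, mem_insert, mem_singleton]
      constructor
      · rintro ⟨x, rfl | rfl | rfl | rfl, rfl⟩ <;> simp
      · rintro (rfl | rfl | rfl | rfl)
        · exact ⟨d, by simp, rfl⟩
        · exact ⟨c, by simp, rfl⟩
        · exact ⟨a, by simp, rfl⟩
        · exact ⟨b, by simp, rfl⟩
    have e1 : ∀ (x : β) (s : Finset β) (p : Prop) [Decidable p], (x ∈ s → p) →
        #s + 1 ≤ #(insert x s) + (if p then 1 else 0) := by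
      intro x s p _ hp
      by_cases h : x ∈ s
      · rw [insert_eq_of_mem h, if_pos (hp h)]
      · rw [card_insert_of_notMem h]
        omega
    rw [e0]
    have q1 := e1 (φ j a) {φ j b} (j ∈ J' a b) (fun h => by
      rw [mem_singleton] at h
      exact mem_filter.mpr ⟨mem_univ _, h⟩)
    have q2 := e1 (φ j c) (insert (φ j a) {φ j b}) (j ∈ J' c a ∪ J' c b) (fun h => by
      rw [mem_insert, mem_singleton] at h
      rw [mem_union]
      rcases h with h | h
      · exact Or.inl (mem_filter.mpr ⟨mem_univ _, h⟩)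
      · exact Or.inr (mem_filter.mpr ⟨mem_univ _, h⟩))
    have q3 := e1 (φ j d) (insert (φ j c) (insert (φ j a) {φ j b}))
      (j ∈ (J' d a ∪ J' d b) ∪ J' d c) (fun h => by
      rw [mem_insert, mem_insert, mem_singleton] at h
      rw [mem_union, mem_union]
      rcases h with h | h | h
      · exact Or.inr (mem_filter.mpr ⟨mem_univ _, h⟩)
      · exact Or.inl (Or.inl (mem_filter.mpr ⟨mem_univ _, h⟩))
      · exact Or.inl (Or.inr (mem_filter.mpr ⟨mem_univ _, h⟩)))
    rw [card_singleton] at q1
    omega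
  have hcount : ∀ s : Finset J, ∑ j, (if j ∈ s then 1 else 0) = #s := by
    intro s
    rw [← sum_filter, filter_univ_mem, sum_const, smul_eq_mul, mul_one]
  have hmain : 4 * Fintype.card J ≤ ∑ j, #((insert d {a, b, c} : Finset α).image (φ j)) +
      #(J' a b) + #(J' c a ∪ J' c b) + #((J' d a ∪ J' d b) ∪ J' d c) := by
    calc 4 * Fintype.card J = ∑ _j : J, 4 := by
          rw [sum_const, card_univ, smul_eq_mul, mul_comm]
      _ ≤ ∑ j, (#((insert d {a, b, c} : Finset α).image (φ j)) +
          (if j ∈ J' a b then 1 else 0) + (if j ∈ J' c a ∪ J' c b then 1 else 0) +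
          (if j ∈ (J' d a ∪ J' d b) ∪ J' d c then 1 else 0)) := sum_le_sum fun j _ => hsum j
      _ = _ := by
          rw [sum_add_distrib, sum_add_distrib, sum_add_distrib, hcount, hcount, hcount]
  have g1 := hJ1 a b hab
  have g2 := hJ1 c a (Ne.symm hac)
  have g3 := hJ1 c b (Ne.symm hbc)
  have g4 := hJ1 d a hda
  have g5 := hJ1 d b hdb
  have g6 := hJ1 d c hdc
  have u1 := card_union_le (J' c a) (J' c b)
  have u2 := card_union_le (J' d a ∪ J' d b) (J' d c)
  have u3 := card_union_le (J' d a) (J' d b)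
  have hcomm : ∀ u v, J' u v = J' v u := by
    intro u v
    simp only [hJ']
    ext j
    simp only [mem_filter, mem_univ, true_and]
    exact eq_comm
  -- case distinction
  rcases (J' a b).eq_empty_or_nonempty with n1 | n1
  · have z1 : #(J' a b) = 0 := by rw [n1, card_empty]
    rcases (J' c a).eq_empty_or_nonempty with n2 | n2
    · have z2 : #(J' c a) = 0 := by rw [n2, card_empty]
      rcases (J' c b).eq_empty_or_nonempty with n3 | n3
      · have z3 : #(J' c b) = 0 := by rw [n3, card_empty]
        omega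
      · have t3 := htri c b d (Ne.symm hbc) (Ne.symm hdb) (Ne.symm hdc) n3
        have t4 : (J' d a ∪ J' d b) ∪ J' d c = J' d a ∪ (J' d c ∪ J' d b) := by
          rw [union_assoc, union_comm (J' d b)]
        have t5 := card_union_le (J' d a) (J' d c ∪ J' d b)
        rw [← t4] at t5
        omega
    · have t3 := htri c a d (Ne.symm hac) (Ne.symm hda) (Ne.symm hdc) n2
      have t4 : (J' d a ∪ J' d b) ∪ J' d c = J' d b ∪ (J' d c ∪ J' d a) := by
        ext w
        simp only [mem_union]
        tauto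
      have t5 := card_union_le (J' d b) (J' d c ∪ J' d a)
      rw [← t4] at t5
      omega
  · have t1 := htri a b c hab hbc hac n1
    have t2 := htri a b d hab (Ne.symm hdb) (Ne.symm hda) n1
    omega

section triples

variable (I A B : Type) [Fintype I] [Fintype A] [Fintype B] [DecidableEq I] [DecidableEq A]
  [DecidableEq B]

/-- the triples `((i, a), (i, b), (a, b))` -/
def boxes : Finset ((I × A) × (I × B) × (A × B)) :=
  (univ : Finset (I × A × B)).image fun p => ((p.1, p.2.1), (p.1, p.2.2), (p.2.1, p.2.2))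

omit [Fintype I] [Fintype A] [Fintype B] [DecidableEq I] [DecidableEq A] [DecidableEq B] in
theorem boxes_inj : Function.Injective
    (fun p : I × A × B => ((p.1, p.2.1), (p.1, p.2.2), (p.2.1, p.2.2))) := by
  rintro ⟨i, a, b⟩ ⟨i', a', b'⟩ h
  simp only [Prod.mk.injEq] at h
  obtain ⟨⟨rfl, rfl⟩, ⟨_, rfl⟩, _⟩ := h
  rfl

theorem card_boxes : #(boxes I A B) = Fintype.card I * Fintype.card A * Fintype.card B := by
  rw [boxes, card_image_of_injective _ (boxes_inj I A B), card_univ]
  simp only [Fintype.card_prod]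
  ring

theorem boxes_free : SevenFourFree (boxes I A B) := by
  intro S hS h4
  obtain ⟨T, -, rfl⟩ := subset_image_iff.mp hS
  rw [card_image_of_injective _ (boxes_inj I A B)] at h4
  let φ : Fin 3 → (I × A × B) → (Option I × Option A × Option B) := fun j p =>
    if j = 0 then (some p.1, some p.2.1, none) else
      if j = 1 then (some p.1, none, some p.2.2) else (none, some p.2.1, some p.2.2)
  have h := four_points φ (by
    rintro j j' ⟨i, a, b⟩ ⟨i', a', b'⟩ h h' hne
    fin_cases j <;> fin_cases j' <;> simp [φ] at h h' hne ⊢ <;> simp_all) (by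
    rintro j1 j2 j3 ⟨i, a, b⟩ ⟨i', a', b'⟩ ⟨i'', a'', b''⟩ h1 h2 h3 k1 k2 k3
    fin_cases j1 <;> fin_cases j2 <;> fin_cases j3 <;> simp [φ] at k1 k2 k3 h1 h2 h3 ⊢ <;>
      simp_all) T h4
  rw [Fintype.card_fin, Fin.sum_univ_three] at h
  have e1 : #(T.image (φ 0)) = #((T.image (fun p : I × A × B =>
      ((p.1, p.2.1), (p.1, p.2.2), (p.2.1, p.2.2)))).image fun p => p.1) := by
    have : T.image (φ 0) = ((T.image (fun p : I × A × B =>
      ((p.1, p.2.1), (p.1, p.2.2), (p.2.1, p.2.2)))).image fun p => p.1).image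
      (fun q : I × A => ((some q.1, some q.2, none) : Option I × Option A × Option B)) := by
      rw [image_image, image_image]
      rfl
    rw [this, card_image_of_injective]
    rintro ⟨i, a⟩ ⟨i', a'⟩ h
    simpa using h
  have e2 : #(T.image (φ 1)) = #((T.image (fun p : I × A × B =>
      ((p.1, p.2.1), (p.1, p.2.2), (p.2.1, p.2.2)))).image fun p => p.2.1) := by
    have : T.image (φ 1) = ((T.image (fun p : I × A × B =>
      ((p.1, p.2.1), (p.1, p.2.2), (p.2.1, p.2.2)))).image fun p => p.2.1).image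
      (fun q : I × B => ((some q.1, none, some q.2) : Option I × Option A × Option B)) := by
      rw [image_image, image_image]
      rfl
    rw [this, card_image_of_injective]
    rintro ⟨i, a⟩ ⟨i', a'⟩ h
    simpa using h
  have e3 : #(T.image (φ 2)) = #((T.image (fun p : I × A × B =>
      ((p.1, p.2.1), (p.1, p.2.2), (p.2.1, p.2.2)))).image fun p => p.2.2) := by
    have : T.image (φ 2) = ((T.image (fun p : I × A × B =>
      ((p.1, p.2.1), (p.1, p.2.2), (p.2.1, p.2.2)))).image fun p => p.2.2).image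
      (fun q : A × B => ((none, some q.1, some q.2) : Option I × Option A × Option B)) := by
      rw [image_image, image_image]
      rfl
    rw [this, card_image_of_injective]
    rintro ⟨i, a⟩ ⟨i', a'⟩ h
    simpa using h
  unfold verts
  omega

end triples

end Pool.Agent.H700.GN
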