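import Pool.Agent.H700.GN.Dense
import Pool.Graph.R_pool_sql_team_seeded_c8625f6e.K4H44.FN.Pattern

/-!
# Patterns of small factorization norm contain large rectangles of ones, whatever their density
-/

set_option autoImplicit false

namespace Pool.Agent.H700.GN

open Finset
open scoped RealInnerProductSpace

variable {X Y Z ι : Type*} [Fintype ι]

/-- the number of the ones in a rectangle -/
def ones (F : X → Y → Bool) (A : Finset X) (B : Finset Y) : ℕ :=
  ∑ x ∈ A, ∑ y ∈ B, if F x y = true then 1 else 0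

theorem ones_row (F : X → Y → Bool) (A : Finset X) (B : Finset Y) :
    ones F A B = ∑ x ∈ A, #{y ∈ B | F x y = true} := by
  unfold ones
  exact sum_congr rfl fun x _ => (card_filter _ _).symm

theorem ones_col (F : X → Y → Bool) (A : Finset X) (B : Finset Y) :
    ones F A B = ∑ y ∈ B, #{x ∈ A | F x y = true} := by
  unfold ones
  rw [sum_comm]
  exact sum_congr rfl fun x _ => (card_filter _ _).symm

theorem ones_mono (F : X → Y → Bool) {A A' : Finset X} {B B' : Finset Y} (hA : A' ⊆ A)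
    (hB : B' ⊆ B) : ones F A' B' ≤ ones F A B := by
  unfold ones
  exact (sum_le_sum_of_subset hA).trans (sum_le_sum fun x _ => sum_le_sum_of_subset hB)

theorem ones_le (F : X → Y → Bool) (A : Finset X) (B : Finset Y) : ones F A B ≤ #A * #B := by
  rw [ones_row]
  exact (sum_le_sum fun x _ => card_le_card (filter_subset _ _)).trans
    (le_of_eq (by rw [sum_const, smul_eq_mul]))

theorem ones_real (F : X → Y → Bool) (A : Finset X) (B : Finset Y) :
    (ones F A B : ℝ) = ∑ x ∈ A, ∑ y ∈ B, if F x y = true then (1 : ℝ) else 0 := by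
  unfold ones
  push_cast
  rfl

theorem ones_split_row (F : X → Y → Bool) (A : Finset X) (B : Finset Y) (p : X → Prop)
    [DecidablePred p] : ones F A B = ones F (A.filter p) B + ones F (A.filter fun x => ¬ p x) B := by
  unfold ones
  exact (sum_filter_add_sum_filter_not A p _).symm

theorem ones_split_col (F : X → Y → Bool) (A : Finset X) (B : Finset Y) (p : Y → Prop)
    [DecidablePred p] : ones F A B = ones F A (B.filter p) + ones F A (B.filter fun y => ¬ p y) := by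
  rw [ones_col, ones_col, ones_col]
  exact (sum_filter_add_sum_filter_not B p _).symm

/-- the number of the quadruples -/
theorem quad (F : X → Y → Bool) (A : Finset X) (B : Finset Y) :
    ∑ j ∈ B, ∑ j' ∈ B, (∑ i ∈ A, (if F i j = true then (1 : ℝ) else 0) *
      (if F i j' = true then 1 else 0)) ^ 2 =
      ∑ i ∈ A, ∑ j ∈ B, (if F i j = true then (1 : ℝ) else 0) *
        ones F {i' ∈ A | F i' j = true} {j' ∈ B | F i j' = true} := by
  set f : X → Y → ℝ := fun i j => if F i j = true then (1 : ℝ) else 0 with hf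
  have e1 : ∀ i j, (ones F {i' ∈ A | F i' j = true} {j' ∈ B | F i j' = true} : ℝ) =
      ∑ i' ∈ A, ∑ j' ∈ B, f i' j * (f i j' * f i' j') := by
    intro i j
    rw [ones_real, sum_filter]
    refine sum_congr rfl fun i' _ => ?_
    by_cases h : F i' j = true
    · rw [if_pos h, sum_filter]
      refine sum_congr rfl fun j' _ => ?_
      simp only [hf, if_pos h]
      by_cases h2 : F i j' = true
      · rw [if_pos h2, if_pos h2]; ring
      · rw [if_neg h2, if_neg h2]; ring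
    · rw [if_neg h]
      simp only [hf, if_neg h]
      simp
  have e2 : ∀ i j, f i j * (ones F {i' ∈ A | F i' j = true} {j' ∈ B | F i j' = true} : ℝ) =
      ∑ i' ∈ A, ∑ j' ∈ B, f i j * (f i' j * (f i j' * f i' j')) := by
    intro i j
    rw [e1, mul_sum]
    exact sum_congr rfl fun i' _ => by rw [mul_sum]
  have e3 : ∀ j j', (∑ i ∈ A, f i j * f i j') ^ 2 =
      ∑ i ∈ A, ∑ i' ∈ A, f i j * (f i' j * (f i j' * f i' j')) := by
    intro j j'
    rw [sq, sum_mul_sum]
    exact sum_congr rfl fun i _ => sum_congr rfl fun i' _ => by ring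
  show ∑ j ∈ B, ∑ j' ∈ B, (∑ i ∈ A, f i j * f i j') ^ 2 = ∑ i ∈ A, ∑ j ∈ B, f i j * _
  simp only [e2, e3]
  calc ∑ j ∈ B, ∑ j' ∈ B, ∑ i ∈ A, ∑ i' ∈ A, f i j * (f i' j * (f i j' * f i' j'))
      = ∑ j ∈ B, ∑ i ∈ A, ∑ j' ∈ B, ∑ i' ∈ A, f i j * (f i' j * (f i j' * f i' j')) :=
        sum_congr rfl fun j _ => sum_comm
    _ = ∑ i ∈ A, ∑ j ∈ B, ∑ j' ∈ B, ∑ i' ∈ A, f i j * (f i' j * (f i j' * f i' j')) :=
        sum_comm
    _ = ∑ i ∈ A, ∑ j ∈ B, ∑ i' ∈ A, ∑ j' ∈ B, f i j * (f i' j * (f i j' * f i' j')) :=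
        sum_congr rfl fun i _ => sum_congr rfl fun j _ => sum_comm

/-- **A rich edge.** -/
theorem rich_edge (F : X → Y → Bool) (g : ℕ) (u : X → EuclideanSpace ℝ ι)
    (v : Y → EuclideanSpace ℝ ι) (h : Fac' F g u v) (A : Finset X) (B : Finset Y)
    (he : 0 < ones F A B) :
    ∃ i ∈ A, ∃ j ∈ B, F i j = true ∧ ones F A B ^ 2 ≤
      g ^ 2 * (#A * #B) * ones F {i' ∈ A | F i' j = true} {j' ∈ B | F i j' = true} := by
  by_contra hcon
  push Not at hcon
  set f : X → Y → ℝ := fun i j => if F i j = true then (1 : ℝ) else 0 with hf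
  set E : ℝ := (ones F A B : ℝ) with hE
  have hE0 : 0 < E := by rw [hE]; exact_mod_cast he
  have hEsum : E = ∑ i ∈ A, ∑ j ∈ B, f i j := ones_real F A B
  have hin : ∀ i j, ⟪u i, v j⟫ = f i j := h.2.2
  have hff : ∀ i j, f i j * f i j = f i j := by
    intro i j
    simp only [hf]
    split_ifs <;> norm_num
  have hf0 : ∀ i j, 0 ≤ f i j := fun i j => by simp only [hf]; split_ifs <;> norm_num
  have key := Pool.Agent.K4H44.FN.spectral_fs A B u v f (by
    refine sum_nonneg fun i _ => sum_nonneg fun j _ => ?_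
    rw [hin, hff]
    exact hf0 i j)
  have e1 : ∑ i ∈ A, ∑ j ∈ B, ⟪u i, v j⟫ * f i j = E := by
    rw [hEsum]
    exact sum_congr rfl fun i _ => sum_congr rfl fun j _ => by rw [hin, hff]
  have e2 : ∑ i ∈ A, ∑ j ∈ B, ⟪u i, v j⟫ ^ 2 = E := by
    rw [hEsum]
    exact sum_congr rfl fun i _ => sum_congr rfl fun j _ => by rw [hin, sq, hff]
  set Q : ℝ := ∑ i ∈ A, ∑ j ∈ B, f i j *
    ones F {i' ∈ A | F i' j = true} {j' ∈ B | F i j' = true} with hQ
  have e3 : ∑ j ∈ B, ∑ j' ∈ B, (∑ i ∈ A, f i j * f i j') ^ 2 = Q := quad F A B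
  rw [e1, e2, e3] at key
  have hU : ∑ i ∈ A, ‖u i‖ ^ 2 ≤ #A * g := by
    refine (sum_le_sum fun i _ => h.1 i).trans (le_of_eq ?_)
    rw [sum_const, nsmul_eq_mul]
  have hV : ∑ j ∈ B, ‖v j‖ ^ 2 ≤ #B * g := by
    refine (sum_le_sum fun i _ => h.2.1 i).trans (le_of_eq ?_)
    rw [sum_const, nsmul_eq_mul]
  have hQ0 : 0 ≤ Q := sum_nonneg fun i _ => sum_nonneg fun j _ =>
    mul_nonneg (hf0 i j) (Nat.cast_nonneg _)
  have k1 : E ^ 4 ≤ ((#A * g) * (#B * g)) * E * Q := by
    refine key.trans ?_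
    refine mul_le_mul_of_nonneg_right (mul_le_mul_of_nonneg_right ?_ hE0.le) hQ0
    exact mul_le_mul hU hV (sum_nonneg fun _ _ => sq_nonneg _) (by positivity)
  have k2 : E ^ 3 ≤ (g : ℝ) ^ 2 * (#A * #B) * Q := by
    have : E * E ^ 3 ≤ E * ((g : ℝ) ^ 2 * (#A * #B) * Q) := by
      calc E * E ^ 3 = E ^ 4 := by ring
        _ ≤ _ := k1
        _ = _ := by ring
    exact le_of_mul_le_mul_left this hE0
  -- but all edges are poor
  obtain ⟨i₀, hi₀, j₀, hj₀, hF₀⟩ : ∃ i ∈ A, ∃ j ∈ B, F i j = true := by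
    by_contra hno
    push Not at hno
    have : E = 0 := by
      rw [hEsum]
      exact sum_eq_zero fun i hi => sum_eq_zero fun j hj => if_neg (hno i hi j hj)
    linarith
  have k3 : (g : ℝ) ^ 2 * (#A * #B) * Q < E ^ 3 := by
    have e4 : (g : ℝ) ^ 2 * (#A * #B) * Q = ∑ i ∈ A, ∑ j ∈ B, f i j * ((g : ℝ) ^ 2 * (#A * #B) *
        ones F {i' ∈ A | F i' j = true} {j' ∈ B | F i j' = true}) := by
      rw [hQ, mul_sum]
      refine sum_congr rfl fun i _ => ?_
      rw [mul_sum]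
      exact sum_congr rfl fun j _ => by ring
    have e5 : E ^ 3 = ∑ i ∈ A, ∑ j ∈ B, f i j * E ^ 2 := by
      calc E ^ 3 = E * E ^ 2 := by ring
        _ = (∑ i ∈ A, ∑ j ∈ B, f i j) * E ^ 2 := by rw [← hEsum]
        _ = _ := by
          rw [sum_mul]
          exact sum_congr rfl fun i _ => by rw [sum_mul]
    have hle : ∀ i ∈ A, ∀ j ∈ B, f i j * ((g : ℝ) ^ 2 * (#A * #B) *
        ones F {i' ∈ A | F i' j = true} {j' ∈ B | F i j' = true}) ≤ f i j * E ^ 2 := by
      intro i hi j hj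
      by_cases hF : F i j = true
      · have := hcon i hi j hj hF
        refine mul_le_mul_of_nonneg_left ?_ (hf0 i j)
        rw [hE]
        exact_mod_cast this.le
      · simp only [hf, if_neg hF, zero_mul, le_refl]
    rw [e4, e5]
    refine sum_lt_sum (fun i hi => sum_le_sum fun j hj => hle i hi j hj) ⟨i₀, hi₀, ?_⟩
    refine sum_lt_sum (fun j hj => hle i₀ hi₀ j hj) ⟨j₀, hj₀, ?_⟩
    have h1 := hcon i₀ hi₀ j₀ hj₀ hF₀
    have h2 : f i₀ j₀ = 1 := if_pos hF₀
    rw [h2, one_mul, one_mul, hE]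
    exact_mod_cast h1
  linarith

/-- **A dense rectangle.** -/
theorem dense_part (F : X → Y → Bool) (g : ℕ) (u : X → EuclideanSpace ℝ ι)
    (v : Y → EuclideanSpace ℝ ι) (h : Fac' F g u v) (A : Finset X) (B : Finset Y)
    (he : 0 < ones F A B) :
    ∃ A' ⊆ A, ∃ B' ⊆ B, 0 < ones F A' B' ∧ #A' * #B' ≤ 1024 * g ^ 2 * ones F A' B' ∧
      ones F A B ^ 2 ≤ 4 * g ^ 2 * (#A * #B) * ones F A' B' := by
  classical
  obtain ⟨⟨A1, B1⟩, hmem, hmax⟩ := exists_max_image (A.powerset ×ˢ B.powerset)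
    (fun p => (ones F p.1 p.2 : ℝ) ^ 2 / (#p.1 * #p.2))
    ⟨(A, B), mem_product.mpr ⟨mem_powerset_self A, mem_powerset_self B⟩⟩
  rw [mem_product, mem_powerset, mem_powerset] at hmem
  simp only at hmem
  have hposA : ∀ (A2 : Finset X) (B2 : Finset Y), 0 < ones F A2 B2 → 0 < #A2 * #B2 :=
    fun A2 B2 h0 => lt_of_lt_of_le h0 (ones_le F A2 B2)
  have hAB := hposA A B he
  have h1 : 0 < ones F A1 B1 := by
    by_contra h0
    have h0' : ones F A1 B1 = 0 := by omega
    have := hmax (A, B) (mem_product.mpr ⟨mem_powerset_self A, mem_powerset_self B⟩)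
    simp only [h0'] at this
    have h2 : (0 : ℝ) < (ones F A B : ℝ) ^ 2 / (#A * #B) := by
      have e1 : (0 : ℝ) < ones F A B := by exact_mod_cast he
      have e2 : (0 : ℝ) < (#A : ℝ) * #B := by exact_mod_cast hAB
      positivity
    simp at this
    linarith
  have hmn := hposA A1 B1 h1
  have hm : 0 < #A1 := Nat.pos_of_mul_pos_right hmn
  have hn : 0 < #B1 := Nat.pos_of_mul_pos_left hmn
  -- maximality
  have hM : ∀ A2 ⊆ A, ∀ B2 ⊆ B,
      ones F A2 B2 ^ 2 * (#A1 * #B1) ≤ ones F A1 B1 ^ 2 * (#A2 * #B2) := by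
    intro A2 hA2 B2 hB2
    rcases Nat.eq_zero_or_pos (#A2 * #B2) with h0 | h0
    · have : ones F A2 B2 = 0 := by
        have := ones_le F A2 B2
        omega
      rw [this]
      simp
    · have h2 := hmax (A2, B2) (mem_product.mpr ⟨mem_powerset.mpr hA2, mem_powerset.mpr hB2⟩)
      simp only at h2
      rw [div_le_div_iff₀ (by exact_mod_cast h0) (by exact_mod_cast hmn)] at h2
      exact_mod_cast h2
  set e := ones F A1 B1 with hedef
  set m := #A1 with hmdef
  set n := #B1 with hndef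
  -- rows of high degree
  set Xh := A1.filter (fun x => 16 * e < m * #{y ∈ B1 | F x y = true}) with hXh
  set Yh := B1.filter (fun y => 16 * e < n * #{x ∈ A1 | F x y = true}) with hYh
  have hXs : Xh ⊆ A1 := filter_subset _ _
  have hYs : Yh ⊆ B1 := filter_subset _ _
  have hX1 : 4 * ones F Xh B1 ≤ e := by
    have a1 : e * (16 * #Xh) ≤ e * m := by
      calc e * (16 * #Xh) = ∑ _x ∈ Xh, 16 * e := by rw [sum_const, smul_eq_mul]; ring
        _ ≤ ∑ x ∈ Xh, m * #{y ∈ B1 | F x y = true} := sum_le_sum fun x hx =>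
            ((mem_filter.mp hx).2).le
        _ = m * ones F Xh B1 := by rw [← mul_sum, ones_row]
        _ ≤ m * e := Nat.mul_le_mul_left _ (ones_mono F hXs subset_rfl)
        _ = e * m := mul_comm _ _
    have a2 : 16 * #Xh ≤ m := Nat.le_of_mul_le_mul_left a1 h1
    have a3 := hM Xh (hXs.trans hmem.1) B1 hmem.2
    have a4 : (m * n) * (4 * ones F Xh B1) ^ 2 ≤ (m * n) * e ^ 2 := by
      calc (m * n) * (4 * ones F Xh B1) ^ 2 = 16 * (ones F Xh B1 ^ 2 * (m * n)) := by ring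
        _ ≤ 16 * (e ^ 2 * (#Xh * n)) := Nat.mul_le_mul_left _ a3
        _ = e ^ 2 * n * (16 * #Xh) := by ring
        _ ≤ e ^ 2 * n * m := Nat.mul_le_mul_left _ a2
        _ = _ := by ring
    have a5 := Nat.le_of_mul_le_mul_left a4 hmn
    exact (Nat.pow_le_pow_iff_left (by norm_num)).mp a5
  have hY1 : 4 * ones F A1 Yh ≤ e := by
    have a1 : e * (16 * #Yh) ≤ e * n := by
      calc e * (16 * #Yh) = ∑ _x ∈ Yh, 16 * e := by rw [sum_const, smul_eq_mul]; ring
        _ ≤ ∑ y ∈ Yh, n * #{x ∈ A1 | F x y = true} := sum_le_sum fun x hx =>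
            ((mem_filter.mp hx).2).le
        _ = n * ones F A1 Yh := by rw [← mul_sum, ones_col]
        _ ≤ n * e := Nat.mul_le_mul_left _ (ones_mono F subset_rfl hYs)
        _ = e * n := mul_comm _ _
    have a2 : 16 * #Yh ≤ n := Nat.le_of_mul_le_mul_left a1 h1
    have a3 := hM A1 hmem.1 Yh (hYs.trans hmem.2)
    have a4 : (m * n) * (4 * ones F A1 Yh) ^ 2 ≤ (m * n) * e ^ 2 := by
      calc (m * n) * (4 * ones F A1 Yh) ^ 2 = 16 * (ones F A1 Yh ^ 2 * (m * n)) := by ring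
        _ ≤ 16 * (e ^ 2 * (m * #Yh)) := Nat.mul_le_mul_left _ a3
        _ = e ^ 2 * m * (16 * #Yh) := by ring
        _ ≤ e ^ 2 * m * n := Nat.mul_le_mul_left _ a2
        _ = _ := by ring
    have a5 := Nat.le_of_mul_le_mul_left a4 hmn
    exact (Nat.pow_le_pow_iff_left (by norm_num)).mp a5
  set A2 := A1.filter (fun x => ¬ 16 * e < m * #{y ∈ B1 | F x y = true}) with hA2
  set B2 := B1.filter (fun y => ¬ 16 * e < n * #{x ∈ A1 | F x y = true}) with hB2
  have hA2s : A2 ⊆ A1 := filter_subset _ _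
  have hB2s : B2 ⊆ B1 := filter_subset _ _
  have hsplit : e ≤ 2 * ones F A2 B2 := by
    have b1 : e = ones F Xh B1 + ones F A2 B1 := ones_split_row F A1 B1 _
    have b2 : ones F A2 B1 = ones F A2 Yh + ones F A2 B2 := ones_split_col F A2 B1 _
    have b3 : ones F A2 Yh ≤ ones F A1 Yh := ones_mono F hA2s subset_rfl
    omega
  obtain ⟨x, hx, y, hy, hxy, hrich⟩ := rich_edge F g u v h A2 B2 (by omega)
  set A' := A2.filter (fun i => F i y = true) with hA'
  set B' := B2.filter (fun j => F x j = true) with hB'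
  have hA's : A' ⊆ A1 := (filter_subset _ _).trans hA2s
  have hB's : B' ⊆ B1 := (filter_subset _ _).trans hB2s
  have c1 : e ^ 2 ≤ 4 * g ^ 2 * (m * n) * ones F A' B' := by
    calc e ^ 2 ≤ (2 * ones F A2 B2) ^ 2 := Nat.pow_le_pow_left hsplit 2
      _ = 4 * ones F A2 B2 ^ 2 := by ring
      _ ≤ 4 * (g ^ 2 * (#A2 * #B2) * ones F A' B') := Nat.mul_le_mul_left _ hrich
      _ ≤ 4 * (g ^ 2 * (m * n) * ones F A' B') := by
          refine Nat.mul_le_mul_left _ (Nat.mul_le_mul_right _ (Nat.mul_le_mul_left _ ?_))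
          exact Nat.mul_le_mul (card_le_card hA2s) (card_le_card hB2s)
      _ = _ := by ring
  have c2 : n * #A' ≤ 16 * e := by
    have d1 := (mem_filter.mp hy).2
    have d2 : #A' ≤ #{x ∈ A1 | F x y = true} := card_le_card (filter_subset_filter _ hA2s)
    have d3 : n * #A' ≤ n * #{x ∈ A1 | F x y = true} := Nat.mul_le_mul_left _ d2
    omega
  have c3 : m * #B' ≤ 16 * e := by
    have d1 := (mem_filter.mp hx).2
    have d2 : #B' ≤ #{y ∈ B1 | F x y = true} := card_le_card (filter_subset_filter _ hB2s)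
    have d3 : m * #B' ≤ m * #{y ∈ B1 | F x y = true} := Nat.mul_le_mul_left _ d2
    omega
  refine ⟨A', hA's.trans hmem.1, B', hB's.trans hmem.2, ?_, ?_, ?_⟩
  · by_contra h0
    have h0' : ones F A' B' = 0 := by omega
    rw [h0', mul_zero] at c1
    have : 0 < e ^ 2 := by positivity
    omega
  · have d1 : (m * n) * (#A' * #B') ≤ (m * n) * (1024 * g ^ 2 * ones F A' B') := by
      calc (m * n) * (#A' * #B') = (n * #A') * (m * #B') := by ring
        _ ≤ (16 * e) * (16 * e) := Nat.mul_le_mul c2 c3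
        _ = 256 * e ^ 2 := by ring
        _ ≤ 256 * (4 * g ^ 2 * (m * n) * ones F A' B') := Nat.mul_le_mul_left _ c1
        _ = _ := by ring
    exact Nat.le_of_mul_le_mul_left d1 hmn
  · have d1 := hM A subset_rfl B subset_rfl
    have d2 : (m * n) * ones F A B ^ 2 ≤
        (m * n) * (4 * g ^ 2 * (#A * #B) * ones F A' B') := by
      calc (m * n) * ones F A B ^ 2 = ones F A B ^ 2 * (m * n) := by ring
        _ ≤ e ^ 2 * (#A * #B) := d1
        _ ≤ (4 * g ^ 2 * (m * n) * ones F A' B') * (#A * #B) := Nat.mul_le_mul_right _ c1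
        _ = _ := by ring
    exact Nat.le_of_mul_le_mul_left d2 hmn

/-- **The rectangle theorem.** A pattern of factorization norm at most `g` with `e` ones in `A × B`
contains a rectangle of ones of area at least `2 ^ (- 766 g ^ 4) e ^ 2 / (|A| |B|)`. -/
theorem rect (F : X → Y → Bool) (g : ℕ) (hg : 1 ≤ g) (u : X → EuclideanSpace ℝ ι)
    (v : Y → EuclideanSpace ℝ ι) (h : Fac' F g u v) (A : Finset X) (B : Finset Y) :
    ∃ A' ⊆ A, ∃ B' ⊆ B, (∀ x ∈ A', ∀ y ∈ B', F x y = true) ∧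
      ones F A B ^ 2 ≤ 2 ^ (766 * g ^ 4) * (#A * #B) * (#A' * #B') := by
  rcases Nat.eq_zero_or_pos (ones F A B) with he | he
  · exact ⟨∅, empty_subset _, ∅, empty_subset _, by simp, by rw [he]; simp⟩
  obtain ⟨A1, hA1, B1, hB1, h1, h2, h3⟩ := dense_part F g u v h A B he
  have h4 : 0 < #A1 * #B1 := lt_of_lt_of_le h1 (ones_le F A1 B1)
  obtain ⟨A', hA', B', hB', hall, hc⟩ := dense F g hg u v h A1 B1
    (card_pos.mp (Nat.pos_of_mul_pos_right h4)) (card_pos.mp (Nat.pos_of_mul_pos_left h4))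
    (by rw [← ones_col]; exact h2)
  refine ⟨A', hA'.trans hA1, B', hB'.trans hB1, hall, ?_⟩
  have hg2 : 1 ≤ g ^ 2 := Nat.one_le_pow _ _ hg
  have hg4 : g ^ 2 ≤ g ^ 4 := Nat.pow_le_pow_right hg (by norm_num)
  have h5 : 4 * g ^ 2 ≤ 2 ^ (3 * g ^ 4) := by
    calc 4 * g ^ 2 ≤ 2 ^ 2 * 2 ^ (g ^ 2) := Nat.mul_le_mul (by norm_num) Nat.lt_two_pow_self.le
      _ = 2 ^ (2 + g ^ 2) := by rw [← pow_add]
      _ ≤ _ := Nat.pow_le_pow_right (by norm_num) (by omega)
  calc ones F A B ^ 2 ≤ 4 * g ^ 2 * (#A * #B) * ones F A1 B1 := h3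
    _ ≤ 4 * g ^ 2 * (#A * #B) * (2 ^ (763 * g ^ 4) * (#A' * #B')) :=
        Nat.mul_le_mul_left _ ((ones_le F A1 B1).trans hc)
    _ = (4 * g ^ 2 * 2 ^ (763 * g ^ 4)) * (#A * #B) * (#A' * #B') := by ring
    _ ≤ (2 ^ (3 * g ^ 4) * 2 ^ (763 * g ^ 4)) * (#A * #B) * (#A' * #B') :=
        Nat.mul_le_mul_right _ (Nat.mul_le_mul_right _ (Nat.mul_le_mul_right _ h5))
    _ = _ := by rw [← pow_add]; congr 3; ring

end Pool.Agent.H700.GN
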