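import Pool.Agent.H700.GN.BES

/-!
# The `(7, 4)` problem for tripartite triple systems with a shadow of small factorization norm
-/

set_option autoImplicit false

namespace Pool.Agent.H700.GN

open Finset

section tri

variable {X Y Z : Type*} [DecidableEq X] [DecidableEq Y] [DecidableEq Z]

/-- the number of the vertices of a set of triples `(x, y, z)` (three disjoint vertex classes) -/
def verts (S : Finset (X × Y × Z)) : ℕ :=
  #(S.image fun p => p.1) + #(S.image fun p => p.2.1) + #(S.image fun p => p.2.2)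

/-- no four triples have at most seven vertices -/
def SevenFourFree (H : Finset (X × Y × Z)) : Prop := ∀ S ⊆ H, #S = 4 → 7 < verts S

omit [DecidableEq X] [DecidableEq Y] [DecidableEq Z] in
theorem four_of_card {α : Type*} {C : Finset α} (h : 3 < #C) : ∃ S ⊆ C, #S = 4 :=
  exists_subset_card_eq (by omega)

/-- codegrees -/
theorem codeg {H : Finset (X × Y × Z)} (hH : SevenFourFree H) (x : X) (y : Y) :
    #{p ∈ H | p.1 = x ∧ p.2.1 = y} ≤ 3 := by
  by_contra hcon
  obtain ⟨S, hS, h4⟩ := four_of_card (not_le.mp hcon)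
  have h1 := hH S (hS.trans (filter_subset _ _)) h4
  have e1 : #(S.image fun p => p.1) ≤ 1 := by
    rw [← card_singleton x]
    refine card_le_card fun w hw => ?_
    obtain ⟨p, hp, rfl⟩ := mem_image.mp hw
    exact mem_singleton.mpr (mem_filter.mp (hS hp)).2.1
  have e2 : #(S.image fun p => p.2.1) ≤ 1 := by
    rw [← card_singleton y]
    refine card_le_card fun w hw => ?_
    obtain ⟨p, hp, rfl⟩ := mem_image.mp hw
    exact mem_singleton.mpr (mem_filter.mp (hS hp)).2.2
  have e3 : #(S.image fun p => p.2.2) ≤ 4 := card_image_le.trans h4.le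
  unfold verts at h1
  omega

/-- Cells with the same label. -/
theorem tri_cells {H : Finset (X × Y × Z)} (hH : SevenFourFree H) (A : Set X) (B : Set Y)
    (lab : X → Y → Z) (hl : ∀ x ∈ A, ∀ y ∈ B, (x, y, lab x y) ∈ H) (C : Finset (X × Y)) (z : Z)
    (hC : ∀ c ∈ C, c.1 ∈ A ∧ c.2 ∈ B ∧ lab c.1 c.2 = z) : #C ≤ 3 := by
  by_contra hcon
  -- two cells in general position
  have hgen : ∀ c ∈ C, ∀ c' ∈ C, c.1 = c'.1 ∨ c.2 = c'.2 := by
    intro c hc c' hc'
    by_contra hne
    push Not at hne
    obtain ⟨hx, hy⟩ := hne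
    obtain ⟨a1, b1, l1⟩ := hC c hc
    obtain ⟨a2, b2, l2⟩ := hC c' hc'
    have h11 := hl _ a1 _ b1
    have h22 := hl _ a2 _ b2
    have h12 := hl _ a1 _ b2
    have h21 := hl _ a2 _ b1
    rw [l1] at h11
    rw [l2] at h22
    have hS := hH {(c.1, c.2, z), (c'.1, c'.2, z), (c.1, c'.2, lab c.1 c'.2),
      (c'.1, c.2, lab c'.1 c.2)} (by
      intro e he
      simp only [mem_insert, mem_singleton] at he
      rcases he with rfl | rfl | rfl | rfl <;> assumption) (by
      rw [card_insert_of_notMem (by simp [hx, hy]),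
        card_insert_of_notMem (by simp [Ne.symm hx, Ne.symm hy]),
        card_insert_of_notMem (by simp [hx]), card_singleton])
    unfold verts at hS
    have e1 : #(({(c.1, c.2, z), (c'.1, c'.2, z), (c.1, c'.2, lab c.1 c'.2),
      (c'.1, c.2, lab c'.1 c.2)} : Finset (X × Y × Z)).image fun p => p.1) ≤ 2 := by
      refine (card_le_card (t := {c.1, c'.1}) ?_).trans card_le_two
      intro w hw
      simp only [mem_image, mem_insert, mem_singleton] at hw ⊢
      obtain ⟨p, hp, rfl⟩ := hw
      rcases hp with rfl | rfl | rfl | rfl <;> simp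
    have e2 : #(({(c.1, c.2, z), (c'.1, c'.2, z), (c.1, c'.2, lab c.1 c'.2),
      (c'.1, c.2, lab c'.1 c.2)} : Finset (X × Y × Z)).image fun p => p.2.1) ≤ 2 := by
      refine (card_le_card (t := {c.2, c'.2}) ?_).trans card_le_two
      intro w hw
      simp only [mem_image, mem_insert, mem_singleton] at hw ⊢
      obtain ⟨p, hp, rfl⟩ := hw
      rcases hp with rfl | rfl | rfl | rfl <;> simp
    have e3 : #(({(c.1, c.2, z), (c'.1, c'.2, z), (c.1, c'.2, lab c.1 c'.2),
      (c'.1, c.2, lab c'.1 c.2)} : Finset (X × Y × Z)).image fun p => p.2.2) ≤ 3 := by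
      refine (card_le_card (t := {z, lab c.1 c'.2, lab c'.1 c.2}) ?_).trans card_le_three
      intro w hw
      simp only [mem_image, mem_insert, mem_singleton] at hw ⊢
      obtain ⟨p, hp, rfl⟩ := hw
      rcases hp with rfl | rfl | rfl | rfl <;> simp
    omega
  obtain ⟨S, hS, h4⟩ := four_of_card (not_le.mp hcon)
  -- all in one row or all in one column
  have hline : (∀ c ∈ S, ∀ c' ∈ S, c.1 = c'.1) ∨ (∀ c ∈ S, ∀ c' ∈ S, c.2 = c'.2) := by
    by_contra hno
    push Not at hno
    obtain ⟨⟨c, hc, c', hc', h1⟩, d, hd, d', hd', h2⟩ := hno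
    have g1 := hgen c (hS hc) c' (hS hc')
    have g2 := hgen d (hS hd) d' (hS hd')
    have k1 : c.2 = c'.2 := g1.resolve_left h1
    have k2 : d.1 = d'.1 := g2.resolve_right h2
    have g3 := hgen c (hS hc) d (hS hd)
    have g4 := hgen c (hS hc) d' (hS hd')
    have g5 := hgen c' (hS hc') d (hS hd)
    have g6 := hgen c' (hS hc') d' (hS hd')
    rcases g3 with g3 | g3
    · -- `c.1 = d.1`
      have : c'.1 ≠ d.1 := fun h => h1 (g3.trans h.symm)
      have i5 := g5.resolve_left this
      have : c'.1 ≠ d'.1 := fun h => h1 (g3.trans (k2.trans h.symm))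
      have i6 := g6.resolve_left this
      exact h2 (i5.symm.trans i6)
    · rcases g4 with g4 | g4
      · have : c'.1 ≠ d'.1 := fun h => h1 (g4.trans h.symm)
        have i6 := g6.resolve_left this
        exact h2 (g3.symm.trans (k1.trans i6))
      · exact h2 (g3.symm.trans g4)
  -- the four triples
  set T : Finset (X × Y × Z) := S.image (fun c => (c.1, c.2, z)) with hT
  have hTc : #T = 4 := by
    rw [hT, card_image_of_injective _ (fun c c' h => by
      simp only [Prod.mk.injEq] at h
      exact Prod.ext h.1 h.2.1), h4]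
  have hTH : T ⊆ H := by
    intro p hp
    obtain ⟨c, hc, rfl⟩ := mem_image.mp hp
    obtain ⟨a1, b1, l1⟩ := hC c (hS hc)
    have := hl _ a1 _ b1
    rwa [l1] at this
  have h7 := hH T hTH hTc
  unfold verts at h7
  have e3 : #(T.image fun p => p.2.2) ≤ 1 := by
    rw [← card_singleton z]
    refine card_le_card fun w hw => ?_
    obtain ⟨p, hp, rfl⟩ := mem_image.mp hw
    obtain ⟨c, hc, rfl⟩ := mem_image.mp hp
    exact mem_singleton.mpr rfl
  obtain ⟨c0, hc0⟩ : S.Nonempty := card_pos.mp (by omega)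
  rcases hline with hl1 | hl2
  · have e1 : #(T.image fun p => p.1) ≤ 1 := by
      rw [← card_singleton c0.1]
      refine card_le_card fun w hw => ?_
      obtain ⟨p, hp, rfl⟩ := mem_image.mp hw
      obtain ⟨c, hc, rfl⟩ := mem_image.mp hp
      exact mem_singleton.mpr (hl1 c hc c0 hc0)
    have e2 : #(T.image fun p => p.2.1) ≤ 4 := card_image_le.trans hTc.le
    omega
  · have e1 : #(T.image fun p => p.2.1) ≤ 1 := by
      rw [← card_singleton c0.2]
      refine card_le_card fun w hw => ?_
      obtain ⟨p, hp, rfl⟩ := mem_image.mp hw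
      obtain ⟨c, hc, rfl⟩ := mem_image.mp hp
      exact mem_singleton.mpr (hl2 c hc c0 hc0)
    have e2 : #(T.image fun p => p.1) ≤ 4 := card_image_le.trans hTc.le
    omega

/-- **The tripartite `(7, 4)` theorem.** -/
theorem tri_union [Fintype X] [Fintype Y] [Fintype Z] {H : Finset (X × Y × Z)}
    (hH : SevenFourFree H) (g t : ℕ) (hg : 1 ≤ g) (F : Fin t → X → Y → Prop)
    (hF : ∀ i, FacNormLE (F i) g) (hsh : ∀ x y, (∃ z, (x, y, z) ∈ H) ↔ ∃ i, F i x y) :
    #H ^ 2 ≤ (6 * t * 2 ^ (383 * g ^ 4)) ^ 2 *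
      (Fintype.card X * Fintype.card Y * Fintype.card Z) := by
  classical
  set N : Fin t → ℕ := fun i => Nat.card {p : X × Y // F i p.1 p.2} with hN
  have h1 : ∀ i, N i ^ 2 ≤ 2 ^ (766 * g ^ 4) *
      (3 * (Fintype.card X * Fintype.card Y * Fintype.card Z)) := by
    intro i
    rcases isEmpty_or_nonempty Z with hZ | hZ
    · have : N i = 0 := by
        rw [hN]
        simp only
        rw [Nat.card_eq_zero]
        left
        refine ⟨fun p => ?_⟩
        obtain ⟨z, _⟩ := (hsh p.1.1 p.1.2).mpr ⟨i, p.2⟩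
        exact hZ.elim z
      rw [this]
      simp
    have hch : ∀ x y, F i x y → ∃ z, (x, y, z) ∈ H := fun x y h => (hsh x y).mpr ⟨i, h⟩
    choose! lab hlab using hch
    have := labelledK (F i) g 3 hg (hF i) lab (by
      intro A B hAB C z hC
      exact tri_cells hH A B lab (fun x hx y hy => hlab x y (hAB x hx y hy)) C z hC)
    rw [Nat.card_eq_fintype_card (α := X), Nat.card_eq_fintype_card (α := Y),
      Nat.card_eq_fintype_card (α := Z)] at this
    calc _ ≤ _ := this
      _ = _ := by ring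
  have h2 : #H ≤ ∑ i, 3 * N i := by
    have hsub : H ⊆ univ.biUnion (fun i => (univ.filter (fun p : X × Y => F i p.1 p.2)).biUnion
        (fun q => H.filter (fun p => p.1 = q.1 ∧ p.2.1 = q.2))) := by
      intro e he
      obtain ⟨i, hi⟩ := (hsh e.1 e.2.1).mp ⟨e.2.2, he⟩
      exact mem_biUnion.mpr ⟨i, mem_univ _, mem_biUnion.mpr ⟨(e.1, e.2.1), mem_filter.mpr
        ⟨mem_univ _, hi⟩, mem_filter.mpr ⟨he, rfl, rfl⟩⟩⟩
    refine (card_le_card hsub).trans (card_biUnion_le.trans (sum_le_sum fun i _ => ?_))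
    have e1 : N i = #(univ.filter (fun p : X × Y => F i p.1 p.2)) := by
      rw [hN]
      simp only
      rw [Nat.card_eq_fintype_card, Fintype.card_subtype]
    rw [e1, mul_comm]
    exact card_biUnion_le_card_mul _ _ _ fun p _ => codeg hH p.1 p.2
  have h3 : (∑ i, 3 * N i) ^ 2 ≤ t * ∑ i, (3 * N i) ^ 2 := by
    have := sq_sum_le_card_mul_sum_sq (s := (Finset.univ : Finset (Fin t)))
      (f := fun i => (3 * N i : ℤ))
    rw [Finset.card_univ, Fintype.card_fin] at this
    exact_mod_cast this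
  calc #H ^ 2 ≤ (∑ i, 3 * N i) ^ 2 := Nat.pow_le_pow_left h2 2
    _ ≤ t * ∑ i, (3 * N i) ^ 2 := h3
    _ ≤ t * ∑ _i : Fin t, 9 * (2 ^ (766 * g ^ 4) *
        (3 * (Fintype.card X * Fintype.card Y * Fintype.card Z))) := by
        refine Nat.mul_le_mul_left _ (sum_le_sum fun i _ => ?_)
        have := h1 i
        calc (3 * N i) ^ 2 = 9 * N i ^ 2 := by ring
          _ ≤ _ := Nat.mul_le_mul_left _ this
    _ = 27 * (t ^ 2 * 2 ^ (766 * g ^ 4) *
        (Fintype.card X * Fintype.card Y * Fintype.card Z)) := by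
        rw [sum_const, card_univ, Fintype.card_fin, smul_eq_mul]
        ring
    _ ≤ 36 * (t ^ 2 * 2 ^ (766 * g ^ 4) *
        (Fintype.card X * Fintype.card Y * Fintype.card Z)) :=
        Nat.mul_le_mul_right _ (by norm_num)
    _ = _ := by
        rw [mul_pow, mul_pow, ← pow_mul, show 383 * g ^ 4 * 2 = 766 * g ^ 4 by ring]
        ring

end tri

end Pool.Agent.H700.GN
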